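import Pool.Agent.Lib.MP_7cdc3e_gt.A2.Spec

/-!
# MP_7cdc3e_gt, A2: the three points
-/

open HoloConj Pool.Agent.Lib.SingHom

namespace TightRP.Ver

/-- the second derivative as a quadratic form -/
private theorem c11_exp (h4 : Tay2Stmt) {h : E3 → ℝ} {y : E3}
    (hd : ∀ᶠ z in nhds y, DifferentiableAt ℝ h z) (hdd : DifferentiableAt ℝ (fderiv ℝ h) y)
    (hz : fderiv ℝ h y = 0) (hy : h y = 0) {ε : ℝ} (hε : 0 < ε) :
    ∃ δ > 0, ∀ v : E3, ‖v‖ < δ →
      |h (y + v) - 1 / 2 * fderiv ℝ (fderiv ℝ h) y v v| ≤ ε * ‖v‖ ^ 2 := by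
  obtain ⟨hexp, -⟩ := h4 ℝ h y hd hdd
  have h2 := hexp.def hε
  rw [Metric.eventually_nhds_iff] at h2
  obtain ⟨δ, hδ, h3⟩ := h2
  refine ⟨δ, hδ, fun v hv => ?_⟩
  have h5 := h3 (y := v) (by rwa [dist_zero_right])
  rw [hz, hy, Real.norm_eq_abs, norm_pow, norm_norm] at h5
  have h6 : (0 : E3 →L[ℝ] ℝ) v = 0 := rfl
  rw [h6, smul_eq_mul, sub_zero, sub_zero] at h5
  exact h5

private theorem c11_smul (h : E3 → ℝ) (y : E3) (t : ℝ) (w : E3) :
    fderiv ℝ (fderiv ℝ h) y (t • w) (t • w) = t ^ 2 * fderiv ℝ (fderiv ℝ h) y w w := by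
  rw [map_smul, map_smul, smul_eq_mul]
  show t * (t • fderiv ℝ (fderiv ℝ h) y w w) = _
  rw [smul_eq_mul]
  ring

private theorem c11_pos (h4 : Tay2Stmt) {h : E3 → ℝ} {y : E3}
    (hd : ∀ᶠ z in nhds y, DifferentiableAt ℝ h z) (hdd : DifferentiableAt ℝ (fderiv ℝ h) y)
    (hnn : ∀ z, 0 ≤ h z) (hy : h y = 0) {w : E3} (hw : fderiv ℝ (fderiv ℝ h) y w w ≠ 0) :
    ∃ η > 0, ∃ ρ₀ > 0, ∀ ρ : ℝ, 0 < ρ → ρ < ρ₀ → ∀ z ∈ Metric.closedBall (y + ρ • w) (η * ρ),
      0 < h z := by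
  have hmin : IsLocalMin h y := Filter.Eventually.of_forall fun z => by
    rw [hy]; exact hnn z
  have hz : fderiv ℝ h y = 0 := hmin.fderiv_eq_zero
  have hwn : 0 < ‖w‖ := by
    rw [norm_pos_iff]
    rintro rfl
    exact hw (by simp)
  -- positive
  have hpos : 0 < fderiv ℝ (fderiv ℝ h) y w w := by
    rcases lt_or_gt_of_ne hw with hneg | hpos
    · exfalso
      have hε : 0 < -fderiv ℝ (fderiv ℝ h) y w w / (4 * ‖w‖ ^ 2) := by
        have : 0 < -fderiv ℝ (fderiv ℝ h) y w w := by linarith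
        positivity
      obtain ⟨δ, hδ, h5⟩ := c11_exp h4 hd hdd hz hy hε
      set t : ℝ := δ / (2 * ‖w‖) with ht
      have htpos : 0 < t := by positivity
      have h6 := h5 (t • w) (by
        rw [norm_smul, Real.norm_eq_abs, abs_of_pos htpos, ht]
        field_simp
        linarith)
      rw [c11_smul, norm_smul, Real.norm_eq_abs, abs_of_pos htpos] at h6
      have h7 := (abs_le.mp h6).2
      have h8 := hnn (y + t • w)
      set q := fderiv ℝ (fderiv ℝ h) y w w with hq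
      have h9 : -q / (4 * ‖w‖ ^ 2) * (t * ‖w‖) ^ 2 = -q * t ^ 2 / 4 := by
        field_simp
      rw [h9] at h7
      have h10 : 0 < -q * t ^ 2 := by
        have : 0 < -q := by linarith
        positivity
      nlinarith
    · exact hpos
  set q := fderiv ℝ (fderiv ℝ h) y w w with hq
  have hcont : Continuous fun v : E3 => fderiv ℝ (fderiv ℝ h) y v v := by
    have h1 : Continuous fun v : E3 => fderiv ℝ (fderiv ℝ h) y v :=
      (fderiv ℝ (fderiv ℝ h) y).continuous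
    exact h1.clm_apply continuous_id
  have hev : ∀ᶠ v in nhds w, q / 2 < fderiv ℝ (fderiv ℝ h) y v v := by
    have h1 : q / 2 < fderiv ℝ (fderiv ℝ h) y w w := by rw [← hq]; linarith
    exact hcont.continuousAt.eventually (lt_mem_nhds h1)
  obtain ⟨η, hη, hball⟩ := (Metric.nhds_basis_closedBall.mem_iff).mp hev
  set R : ℝ := ‖w‖ + η with hR
  have hRpos : 0 < R := by positivity
  obtain ⟨δ, hδ, h5⟩ := c11_exp h4 hd hdd hz hy (show 0 < q / (8 * R ^ 2) by positivity)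
  refine ⟨η, hη, δ / R, by positivity, fun ρ hρ hρ₀ z hz' => ?_⟩
  rw [lt_div_iff₀ hRpos] at hρ₀
  set w' : E3 := ρ⁻¹ • (z - y) with hw'
  have hzw : z = y + ρ • w' := by
    rw [hw', smul_smul, mul_inv_cancel₀ hρ.ne', one_smul]
    abel
  have hww : ‖w' - w‖ ≤ η := by
    rw [Metric.mem_closedBall, dist_eq_norm, hzw] at hz'
    have h6 : y + ρ • w' - (y + ρ • w) = ρ • (w' - w) := by
      rw [smul_sub]; abel
    rw [h6, norm_smul, Real.norm_eq_abs, abs_of_pos hρ, mul_comm] at hz'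
    exact le_of_mul_le_mul_right hz' hρ
  have hw'R : ‖w'‖ ≤ R := by
    have h6 : w' = w + (w' - w) := by abel
    rw [h6]
    exact (norm_add_le _ _).trans (by rw [hR]; linarith)
  have hQ : q / 2 < fderiv ℝ (fderiv ℝ h) y w' w' := by
    refine hball ?_
    rw [Metric.mem_closedBall, dist_eq_norm]
    exact hww
  have h6 := h5 (ρ • w') (by
    rw [norm_smul, Real.norm_eq_abs, abs_of_pos hρ]
    exact (mul_le_mul_of_nonneg_left hw'R hρ.le).trans_lt hρ₀)
  rw [c11_smul, ← hzw, norm_smul, Real.norm_eq_abs, abs_of_pos hρ] at h6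
  have h7 := (abs_le.mp h6).1
  have h8 : q / (8 * R ^ 2) * (ρ * ‖w'‖) ^ 2 ≤ q / 8 * ρ ^ 2 := by
    have h9 : (ρ * ‖w'‖) ^ 2 ≤ (ρ * R) ^ 2 :=
      pow_le_pow_left₀ (by positivity) (mul_le_mul_of_nonneg_left hw'R hρ.le) 2
    calc q / (8 * R ^ 2) * (ρ * ‖w'‖) ^ 2 ≤ q / (8 * R ^ 2) * (ρ * R) ^ 2 :=
          mul_le_mul_of_nonneg_left h9 (by positivity)
      _ = q / 8 * ρ ^ 2 := by field_simp
  have h9 : 0 < q * ρ ^ 2 := by positivity
  nlinarith [mul_lt_mul_of_pos_right hQ (show 0 < ρ ^ 2 by positivity)]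

theorem tC11 (h1 : SetStmt) (h2 : DenStmt) (h3 : DpStmt) (h4 : Tay2Stmt) (h5 : FrmStmt)
    (h6 : R1Stmt) : C11Stmt := by
  intro F _ M _ N f hT hstr
  obtain ⟨e, S, hd, hST, hvol, hS⟩ := h1 M N f hstr
  obtain ⟨y, hy, hden⟩ := h2 S hvol
  obtain ⟨hdy, l, hl⟩ := hS y hy
  obtain ⟨hPa, D, hD⟩ := h3 M N f e y l (hST hy) hd hdy hl
  obtain ⟨A⟩ := h6 F M (aff f) hT (e.symm y) ⟨D⟩
  have hpeano : ∀ z ∈ S, PeanoPt f (e.symm z) := by
    intro z hz
    obtain ⟨hdz, l', hl'⟩ := hS z hz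
    exact (h3 M N f e z l' (hST hz) hd hdz hl').1
  -- the second point
  let w₀ : E3 := EuclideanSpace.single 0 1
  have hw₀ : ‖w₀‖ = 1 := by simp [w₀]
  obtain ⟨ρ, hρ, hρ1, y', hy'S, hy'b⟩ := hden w₀ (1 / 2) 1 (by norm_num) one_pos
  have hyy : y' ≠ y := by
    rintro rfl
    rw [Metric.mem_closedBall, dist_self_add_right, norm_smul, hw₀, Real.norm_eq_abs,
      abs_of_pos hρ] at hy'b
    linarith
  have hab : e.symm y ≠ e.symm y' := by
    intro he
    exact hyy (e.symm.injOn (by simpa using hST hy'S) (by simpa using hST hy) he.symm)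
  obtain ⟨u, hu⟩ := A.rk (e.symm y')
  obtain ⟨p, hp0, hup⟩ : ∃ p : R3, p ≠ 0 ∧ u p = 0 := by
    have hker : LinearMap.ker u ≠ ⊥ := by
      apply LinearMap.ker_ne_bot_of_finrank_lt
      simp
    obtain ⟨p, hp, hp0⟩ := (Submodule.ne_bot_iff _).mp hker
    exact ⟨p, hp0, hp⟩
  set m : M → ℝ := A.S p p with hm
  have hmem : m ∈ aff f := A.mem p p
  have hm0 : ∀ x, 0 ≤ m x := by
    intro x
    obtain ⟨u', hu'⟩ := A.rk x
    rw [hm, hu']
    exact mul_self_nonneg _
  have hma : m (e.symm y) = 0 := A.ata p p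
  have hmb : m (e.symm y') = 0 := by
    rw [hm, hu, hup, zero_mul]
  have hmne : m ≠ 0 := by
    intro hz
    have hsum : ∑ i, ∑ j, sq p i j • A.S (Pi.single i 1) (Pi.single j 1) = A.S p p := by
      have hpe : p = ∑ i, p i • (Pi.single i 1 : R3) := by
        funext k
        simp [Finset.sum_apply, Pi.single_apply]
      conv_rhs => rw [hpe]
      simp only [map_sum, map_smul, LinearMap.sum_apply, LinearMap.smul_apply, sq]
      rw [Finset.sum_comm]
      refine Finset.sum_congr rfl fun j _ => ?_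
      rw [Finset.smul_sum]
      refine Finset.sum_congr rfl fun i _ => ?_
      rw [smul_smul, mul_comm]
    have hsq : sq p = 0 := by
      refine A.indep (sq p) ?_ ?_
      · ext i j
        simp [sq, Matrix.transpose_apply, mul_comm]
      · rw [hsum, ← hm, hz]
    apply hp0
    funext i
    have h7 : sq p i i = 0 := by rw [hsq]; rfl
    exact mul_self_eq_zero.mp h7
  obtain ⟨l', t, hlt⟩ := hmem
  -- smoothness
  have hopen : IsOpen e.target := e.open_target
  have hdF : ∀ z ∈ e.target, DifferentiableAt ℝ (fun z => f (e.symm z)) z := fun z hz =>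
    (hd z hz).differentiableAt (hopen.mem_nhds hz)
  let L : EuclideanSpace ℝ (Fin N) →L[ℝ] ℝ := LinearMap.toContinuousLinearMap l'
  have hfd : ∀ z ∈ e.target, HasFDerivAt (fun z => m (e.symm z))
      (L.comp (fderiv ℝ (fun z => f (e.symm z)) z)) z := by
    intro z hz
    have h7 := (L.hasFDerivAt.comp z (hdF z hz).hasFDerivAt).add_const t
    have h8 : (fun z => m (e.symm z)) = fun z => (L ∘ fun z => f (e.symm z)) z + t := by
      funext z
      rw [hlt]
      rfl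
    rw [h8]
    exact h7
  have hdh : ∀ᶠ z in nhds y, DifferentiableAt ℝ (fun z => m (e.symm z)) z := by
    filter_upwards [hopen.mem_nhds (hST hy)] with z hz
    exact (hfd z hz).differentiableAt
  have hddh : DifferentiableAt ℝ (fderiv ℝ (fun z => m (e.symm z))) y := by
    have h7 : fderiv ℝ (fun z => m (e.symm z)) =ᶠ[nhds y]
        fun z => L.comp (fderiv ℝ (fun z => f (e.symm z)) z) := by
      filter_upwards [hopen.mem_nhds (hST hy)] with z hz
      exact (hfd z hz).fderiv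
    refine DifferentiableAt.congr_of_eventuallyEq ?_ h7
    exact (ContinuousLinearMap.compL ℝ E3 (EuclideanSpace ℝ (Fin N)) ℝ L).differentiableAt.comp y hdy
  have hhy : (fun z => m (e.symm z)) y = 0 := hma
  have hmin : IsLocalMin (fun z => m (e.symm z)) y := Filter.Eventually.of_forall fun z => by
    show m (e.symm y) ≤ m (e.symm z)
    rw [hma]
    exact hm0 _
  have hDm := hD ⟨m, A.mem p p⟩
  have hDd : D.d ⟨m, A.mem p p⟩ = 0 := hDm.1 hmin.fderiv_eq_zero
  obtain ⟨-, Λ, -, -, -, hΛ, -⟩ := h5 F M (aff f) hT (e.symm y) D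
  have hex : ∃ w, fderiv ℝ (fderiv ℝ (fun z => m (e.symm z))) y w w ≠ 0 := by
    by_contra hcon
    push Not at hcon
    have hq := hDm.2 hcon
    have h7 := hΛ ⟨m, A.mem p p⟩ hma hDd
    rw [hq, map_zero] at h7
    exact hmne (congrArg Subtype.val h7).symm
  obtain ⟨w, hw⟩ := hex
  obtain ⟨η, hη, ρ₀, hρ₀, hpos⟩ := c11_pos h4 hdh hddh (fun z => hm0 _) hhy hw
  obtain ⟨r, hr, hrρ, y'', hy''S, hy''b⟩ := hden w η ρ₀ hη hρ₀
  have hmc : 0 < m (e.symm y'') := hpos r hr hrρ y'' hy''b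
  refine ⟨e.symm y, e.symm y', e.symm y'', hab, hpeano y hy, hpeano y' hy'S, hpeano y'' hy''S,
    l', -t, fun x => ?_, ?_, ?_, ?_⟩
  · have h7 := hm0 x
    rw [hlt] at h7
    linarith
  · rw [hlt] at hma
    simp only at hma
    linarith
  · rw [hlt] at hmb
    simp only at hmb
    linarith
  · rw [hlt] at hmc
    simp only at hmc
    linarith

end TightRP.Ver
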