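import Pool.Agent.Lib.MP_7cdc3e_gt.A2.Spec

/-!
# MP_7cdc3e_gt, A2: density points
-/

open HoloConj Pool.Agent.Lib.SingHom

namespace TightRP.Ver

open MeasureTheory

theorem tDen : DenStmt := by
  intro S hS
  have hae : ∀ᵐ x ∂(volume : Measure E3).restrict S, ∀ K : ℕ, ∀ (w : ℕ → E3) (δ : ℕ → ℝ),
      Filter.Tendsto δ Filter.atTop (nhdsWithin 0 (Set.Ioi 0)) →
      (∀ᶠ j in Filter.atTop, x ∈ Metric.closedBall (w j) (K * δ j)) →
      Filter.Tendsto (fun j => volume (S ∩ Metric.closedBall (w j) (δ j)) /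
        volume (Metric.closedBall (w j) (δ j))) Filter.atTop (nhds 1) := by
    rw [ae_all_iff]
    intro K
    filter_upwards [IsUnifLocDoublingMeasure.ae_tendsto_measure_inter_div (volume : Measure E3) S K]
      with x hx w δ h1 h2
    exact hx w δ h1 h2
  have hex : ∃ y ∈ S, ∀ K : ℕ, ∀ (w : ℕ → E3) (δ : ℕ → ℝ),
      Filter.Tendsto δ Filter.atTop (nhdsWithin 0 (Set.Ioi 0)) →
      (∀ᶠ j in Filter.atTop, y ∈ Metric.closedBall (w j) (K * δ j)) →
      Filter.Tendsto (fun j => volume (S ∩ Metric.closedBall (w j) (δ j)) /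
        volume (Metric.closedBall (w j) (δ j))) Filter.atTop (nhds 1) := by
    by_contra hcon
    push Not at hcon
    rw [ae_iff] at hae
    apply hS
    refine le_antisymm ?_ (zero_le)
    refine le_trans ?_ ((Measure.le_restrict_apply (μ := volume) S _).trans hae.le)
    refine measure_mono fun x hx => ⟨?_, hx⟩
    obtain ⟨K, w, δ, h1, h2, h3⟩ := hcon x hx
    intro h
    exact h3 (h K w δ h1 h2)
  obtain ⟨y, hy, hgood⟩ := hex
  refine ⟨y, hy, fun w η ρ₀ hη hρ₀ => ?_⟩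
  obtain ⟨K, hK⟩ := exists_nat_ge (‖w‖ / η)
  have hρpos : ∀ j : ℕ, 0 < ρ₀ / ((j : ℝ) + 2) := fun j => by positivity
  have hlim0 : Filter.Tendsto (fun j : ℕ => η * (ρ₀ / ((j : ℝ) + 2))) Filter.atTop (nhds 0) := by
    have h1 : Filter.Tendsto (fun j : ℕ => (j : ℝ) + 2) Filter.atTop Filter.atTop :=
      Filter.tendsto_atTop_add_const_right _ _ tendsto_natCast_atTop_atTop
    have h2 := (h1.const_div_atTop ρ₀).const_mul η
    simpa using h2
  have hlim : Filter.Tendsto (fun j : ℕ => η * (ρ₀ / ((j : ℝ) + 2))) Filter.atTop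
      (nhdsWithin 0 (Set.Ioi 0)) := by
    rw [tendsto_nhdsWithin_iff]
    exact ⟨hlim0, Filter.Eventually.of_forall fun j => mul_pos hη (hρpos j)⟩
  have h1 := hgood K (fun j => y + (ρ₀ / ((j : ℝ) + 2)) • w) _ hlim (by
    refine Filter.Eventually.of_forall fun j => ?_
    rw [Metric.mem_closedBall, dist_self_add_right, norm_smul, Real.norm_eq_abs,
      abs_of_pos (hρpos j)]
    have h2 : ‖w‖ ≤ K * η := by
      rwa [div_le_iff₀ hη] at hK
    calc ρ₀ / ((j : ℝ) + 2) * ‖w‖ ≤ ρ₀ / ((j : ℝ) + 2) * (K * η) :=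
          mul_le_mul_of_nonneg_left h2 (hρpos j).le
      _ = K * (η * (ρ₀ / ((j : ℝ) + 2))) := by ring)
  have h2 := h1.eventually_ne (one_ne_zero)
  obtain ⟨j, hj⟩ := h2.exists
  refine ⟨ρ₀ / ((j : ℝ) + 2), hρpos j, ?_, ?_⟩
  · rw [div_lt_iff₀ (by positivity)]
    have h3 : (0 : ℝ) ≤ (j : ℝ) := Nat.cast_nonneg j
    nlinarith
  · by_contra hemp
    rw [Set.not_nonempty_iff_eq_empty] at hemp
    apply hj
    simp only [hemp, measure_empty, ENNReal.zero_div]

end TightRP.Ver
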