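import Pool.Agent.Lib.MP_7cdc3e_gt.A2.Spec

/-!
# MP_7cdc3e_gt, Theorem A for `C^{1,1}` immersions, D8: definite points in the two senses
-/

open HoloConj Pool.Agent.Lib.SingHom

namespace TightRP

namespace Ver

open Asymptotics Filter

/-- the coordinates -/
private noncomputable def dpT : R3 ≃L[ℝ] E3 := (EuclideanSpace.equiv (Fin 3) ℝ).symm

/-- the chart -/
private noncomputable def dpG (y : E3) (r : ℝ) (x : R3) : E3 :=
  OpenPartialHomeomorph.univBall y r (dpT x)

/-- the contraction factor -/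
private noncomputable def dpS (x : R3) : ℝ := (√(1 + ‖dpT x‖ ^ 2))⁻¹

private theorem dpG_eq {y : E3} {r : ℝ} (hr : 0 < r) (x : R3) :
    dpG y r x = y + (r * dpS x) • dpT x := by
  unfold dpG OpenPartialHomeomorph.univBall
  rw [dif_pos hr]
  change r • ((√(1 + ‖dpT x‖ ^ 2))⁻¹ • dpT x) + y = _
  rw [smul_smul, add_comm]
  rfl

private theorem dpS_pos (x : R3) : 0 < dpS x := by
  unfold dpS
  positivity

private theorem dpS_le (x : R3) : dpS x ≤ 1 := by
  unfold dpS
  apply inv_le_one_of_one_le₀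
  rw [Real.one_le_sqrt]
  nlinarith [sq_nonneg ‖dpT x‖]

private theorem dpS_ge (x : R3) : 1 - ‖dpT x‖ ^ 2 ≤ dpS x := by
  have h0 : 0 ≤ ‖dpT x‖ ^ 2 := sq_nonneg _
  have h1 : √(1 + ‖dpT x‖ ^ 2) ≤ 1 + ‖dpT x‖ ^ 2 := by
    rw [Real.sqrt_le_left (by positivity)]
    nlinarith
  have h2 : (1 + ‖dpT x‖ ^ 2)⁻¹ ≤ dpS x := by
    unfold dpS
    exact inv_anti₀ (by positivity) h1
  refine le_trans ?_ h2
  rw [← one_div, le_div_iff₀ (by positivity)]
  nlinarith

private theorem dpT_le (x : R3) : ‖dpT x‖ ≤ ‖(dpT : R3 →L[ℝ] E3)‖ * ‖x‖ :=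
  (dpT : R3 →L[ℝ] E3).le_opNorm x

private theorem dpT_sq : (fun x : R3 => ‖dpT x‖ ^ 2) =O[nhds 0] fun x => ‖x‖ ^ 2 := by
  apply IsBigO.of_bound (‖(dpT : R3 →L[ℝ] E3)‖ ^ 2)
  refine Eventually.of_forall fun x => ?_
  rw [Real.norm_of_nonneg (sq_nonneg _), Real.norm_of_nonneg (sq_nonneg _), ← mul_pow]
  exact pow_le_pow_left₀ (norm_nonneg _) (dpT_le x) 2

private theorem dpS_cont : Continuous dpS := by
  unfold dpS
  apply Continuous.inv₀
  · have := dpT.continuous
    fun_prop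
  · intro x
    positivity

private theorem dpS_zero : dpS 0 = 1 := by
  unfold dpS
  simp

/-- the expansion in the chart -/
private theorem dp_exp {W : Type} [NormedAddCommGroup W] [NormedSpace ℝ W] {H : E3 → W} {y : E3}
    {r : ℝ} (hr : 0 < r) {L : E3 →L[ℝ] W} {Q : E3 →L[ℝ] E3 →L[ℝ] W}
    (h : (fun v => H (y + v) - H y - L v - (1 / 2 : ℝ) • Q v v) =o[nhds 0] fun v => ‖v‖ ^ 2) :
    (fun x : R3 => H (dpG y r x) - H y - r • L (dpT x) - (r ^ 2 / 2) • Q (dpT x) (dpT x))
      =o[nhds 0] fun x => ‖x‖ ^ 2 := by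
  have hTc : Continuous (fun x : R3 => dpT x) := dpT.continuous
  have hη : Tendsto (fun x : R3 => (r * dpS x) • dpT x) (nhds 0) (nhds 0) := by
    have h1 : Continuous (fun x : R3 => (r * dpS x) • dpT x) :=
      (continuous_const.mul dpS_cont).smul hTc
    have h2 := h1.tendsto 0
    simpa using h2
  have hηO : (fun x : R3 => ‖(r * dpS x) • dpT x‖ ^ 2) =O[nhds 0] fun x => ‖x‖ ^ 2 := by
    refine IsBigO.trans ?_ dpT_sq
    apply IsBigO.of_bound (r ^ 2)
    refine Eventually.of_forall fun x => ?_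
    rw [Real.norm_of_nonneg (sq_nonneg _), Real.norm_of_nonneg (sq_nonneg _), norm_smul,
      Real.norm_of_nonneg (mul_nonneg hr.le (dpS_pos x).le), ← mul_pow]
    apply pow_le_pow_left₀ (by have := dpS_pos x; positivity)
    apply mul_le_mul_of_nonneg_right _ (norm_nonneg _)
    have := dpS_le x
    nlinarith
  have t1 := (h.comp_tendsto hη).trans_isBigO hηO
  have t2 : (fun x : R3 => (r * (dpS x - 1)) • L (dpT x)) =o[nhds 0] fun x => ‖x‖ ^ 2 := by
    have h1 : (fun x : R3 => r * (dpS x - 1)) =O[nhds 0] fun x => ‖x‖ ^ 2 := by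
      refine IsBigO.trans ?_ dpT_sq
      apply IsBigO.of_bound r
      refine Eventually.of_forall fun x => ?_
      rw [Real.norm_of_nonneg (sq_nonneg _), norm_mul, Real.norm_of_nonneg hr.le]
      apply mul_le_mul_of_nonneg_left _ hr.le
      rw [Real.norm_eq_abs, abs_le]
      have h3 := dpS_ge x
      have h4 := dpS_le x
      constructor
      · linarith
      · nlinarith [sq_nonneg ‖dpT x‖]
    have h2 : (fun x : R3 => L (dpT x)) =o[nhds 0] fun _ => (1 : ℝ) := by
      rw [isLittleO_one_iff]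
      have h3 : Continuous (fun x : R3 => L (dpT x)) := L.continuous.comp hTc
      have h4 := h3.tendsto 0
      simpa using h4
    have h3 := h1.smul_isLittleO h2
    simpa using h3
  have t3 : (fun x : R3 => (r ^ 2 / 2 * (dpS x ^ 2 - 1)) • Q (dpT x) (dpT x))
      =o[nhds 0] fun x => ‖x‖ ^ 2 := by
    have h1 : (fun x : R3 => r ^ 2 / 2 * (dpS x ^ 2 - 1)) =o[nhds 0] fun _ => (1 : ℝ) := by
      rw [isLittleO_one_iff]
      have h3 : Continuous (fun x : R3 => r ^ 2 / 2 * (dpS x ^ 2 - 1)) := by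
        have := dpS_cont
        fun_prop
      have h4 := h3.tendsto 0
      simpa [dpS_zero] using h4
    have h2 : (fun x : R3 => Q (dpT x) (dpT x)) =O[nhds 0] fun x => ‖x‖ ^ 2 := by
      refine IsBigO.trans ?_ dpT_sq
      apply IsBigO.of_bound ‖Q‖
      refine Eventually.of_forall fun x => ?_
      rw [Real.norm_of_nonneg (sq_nonneg ‖dpT x‖)]
      refine (Q.le_opNorm₂ _ _).trans (le_of_eq ?_)
      ring
    have h3 := h1.smul_isBigO h2
    simpa using h3
  refine ((t1.add t2).add t3).congr_left fun x => ?_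
  simp only [Function.comp_apply, dpG_eq hr]
  simp only [map_smul, smul_apply]
  module

/-- `H` is differentiable near `y`, with derivative differentiable at `y` -/
private structure DpOk {W : Type} [NormedAddCommGroup W] [NormedSpace ℝ W] (H : E3 → W) (y : E3) :
    Prop where
  near : ∀ᶠ z in nhds y, DifferentiableAt ℝ H z
  snd : DifferentiableAt ℝ (fderiv ℝ H) y

section ok

variable {W : Type} [NormedAddCommGroup W] [NormedSpace ℝ W] {H K : E3 → W} {y : E3}

private theorem dp_add_ev (hH : DpOk H y) (hK : DpOk K y) :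
    fderiv ℝ (H + K) =ᶠ[nhds y] fderiv ℝ H + fderiv ℝ K := by
  filter_upwards [hH.near, hK.near] with z h1 h2
  exact fderiv_add h1 h2

private theorem dp_add (hH : DpOk H y) (hK : DpOk K y) :
    fderiv ℝ (H + K) y = fderiv ℝ H y + fderiv ℝ K y ∧
      fderiv ℝ (fderiv ℝ (H + K)) y = fderiv ℝ (fderiv ℝ H) y + fderiv ℝ (fderiv ℝ K) y := by
  refine ⟨(dp_add_ev hH hK).self_of_nhds, ?_⟩
  rw [(dp_add_ev hH hK).fderiv_eq]
  exact fderiv_add hH.snd hK.snd

private theorem dp_smul_ev (hH : DpOk H y) (t : ℝ) :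
    fderiv ℝ (t • H) =ᶠ[nhds y] t • fderiv ℝ H := by
  filter_upwards [hH.near] with z h1
  exact fderiv_const_smul h1 t

private theorem dp_smul (hH : DpOk H y) (t : ℝ) :
    fderiv ℝ (t • H) y = t • fderiv ℝ H y ∧
      fderiv ℝ (fderiv ℝ (t • H)) y = t • fderiv ℝ (fderiv ℝ H) y := by
  refine ⟨(dp_smul_ev hH t).self_of_nhds, ?_⟩
  rw [(dp_smul_ev hH t).fderiv_eq]
  exact fderiv_const_smul hH.snd t

private theorem dp_clm (hH : DpOk H y) (m : W →L[ℝ] ℝ) (c : ℝ) :
    DpOk (fun z => m (H z) + c) y ∧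
      fderiv ℝ (fun z => m (H z) + c) y = m.comp (fderiv ℝ H y) ∧
      ∀ v w, fderiv ℝ (fderiv ℝ (fun z => m (H z) + c)) y v w =
        m (fderiv ℝ (fderiv ℝ H) y v w) := by
  have hd : ∀ z, DifferentiableAt ℝ H z →
      HasFDerivAt (fun z => m (H z) + c) (m.comp (fderiv ℝ H z)) z := fun z hz =>
    (m.hasFDerivAt.comp z hz.hasFDerivAt).add_const c
  have hev : fderiv ℝ (fun z => m (H z) + c) =ᶠ[nhds y] fun z => m.comp (fderiv ℝ H z) := by
    filter_upwards [hH.near] with z hz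
    exact (hd z hz).fderiv
  have h2 : HasFDerivAt (fun z => m.comp (fderiv ℝ H z))
      ((ContinuousLinearMap.compL ℝ E3 W ℝ m).comp (fderiv ℝ (fderiv ℝ H) y)) y :=
    (ContinuousLinearMap.compL ℝ E3 W ℝ m).hasFDerivAt.comp y hH.snd.hasFDerivAt
  refine ⟨⟨?_, ?_⟩, hev.self_of_nhds, ?_⟩
  · filter_upwards [hH.near] with z hz
    exact (hd z hz).differentiableAt
  · exact (h2.congr_of_eventuallyEq hev).differentiableAt
  · intro v w
    rw [hev.fderiv_eq, h2.fderiv]
    rfl

end ok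

private theorem dp_lin {W : Type} [NormedAddCommGroup W] [NormedSpace ℝ W] (L : E3 →L[ℝ] W)
    (x : R3) : ∑ i, x i • L (dpT (Pi.single i 1)) = L (dpT x) := by
  conv_rhs => rw [← Finset.univ_sum_single x]
  rw [map_sum, map_sum]
  refine Finset.sum_congr rfl fun i _ => ?_
  have : (Pi.single i (x i) : R3) = x i • (Pi.single i 1 : R3) := by
    rw [← Pi.single_smul, smul_eq_mul, mul_one]
  rw [this, map_smul, map_smul]

private theorem dp_bil {W : Type} [NormedAddCommGroup W] [NormedSpace ℝ W]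
    (B : E3 →L[ℝ] E3 →L[ℝ] W) (x : R3) :
    ∑ i, ∑ j, (x i * x j) • B (dpT (Pi.single i 1)) (dpT (Pi.single j 1)) =
      B (dpT x) (dpT x) := by
  have h1 : ∀ i, ∑ j, (x i * x j) • B (dpT (Pi.single i 1)) (dpT (Pi.single j 1)) =
      x i • B.flip (dpT x) (dpT (Pi.single i 1)) := by
    intro i
    rw [ContinuousLinearMap.flip_apply, ← dp_lin (B (dpT (Pi.single i 1))) x, Finset.smul_sum]
    refine Finset.sum_congr rfl fun j _ => ?_
    rw [smul_smul]
  rw [Finset.sum_congr rfl fun i _ => h1 i, dp_lin (B.flip (dpT x)) x]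
  rfl

private theorem dp_sum_lin (L : E3 →L[ℝ] ℝ) (r : ℝ) (x : R3) :
    ∑ i, (r * L (dpT (Pi.single i 1))) * x i = r • L (dpT x) := by
  rw [← dp_lin L x, Finset.smul_sum]
  refine Finset.sum_congr rfl fun i _ => ?_
  simp only [smul_eq_mul]
  ring

private theorem dp_sum_bil (Q : E3 →L[ℝ] E3 →L[ℝ] ℝ) (r : ℝ) (x : R3) :
    ∑ i, ∑ j, (r * Q (dpT (Pi.single i 1)) (dpT (Pi.single j 1))) * (x i * x j) =
      r • Q (dpT x) (dpT x) := by
  rw [← dp_bil Q x, Finset.smul_sum]
  refine Finset.sum_congr rfl fun i _ => ?_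
  rw [Finset.smul_sum]
  refine Finset.sum_congr rfl fun j _ => ?_
  simp only [smul_eq_mul]
  ring

private theorem dp_peano {M : Type} [TopologicalSpace M] {N : ℕ}
    {f : M → EuclideanSpace ℝ (Fin N)} {gg : R3 → M} {a : M} {F : E3 → EuclideanSpace ℝ (Fin N)}
    {y : E3} {r : ℝ} (hr : 0 < r) (hF : ∀ x, f (gg x) = F (dpG y r x)) (ha : f a = F y)
    (hge : Topology.IsOpenEmbedding gg) (hg0 : gg 0 = a)
    {L : E3 →L[ℝ] EuclideanSpace ℝ (Fin N)} {Q : E3 →L[ℝ] E3 →L[ℝ] EuclideanSpace ℝ (Fin N)}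
    (h : (fun v => F (y + v) - F y - L v - (1 / 2 : ℝ) • Q v v) =o[nhds 0] fun v => ‖v‖ ^ 2)
    (hsym : ∀ v w, Q v w = Q w v) (l : EuclideanSpace ℝ (Fin N) →ₗ[ℝ] ℝ)
    (hL : ∀ v, l (L v) = 0) (hQ : ∀ v, v ≠ 0 → 0 < l (Q v v)) : PeanoPt f a := by
  have hb : ∀ x : R3, ∑ i, ∑ j, (x i * x j) • ((r ^ 2 / 2) • Q (dpT (Pi.single i 1))
      (dpT (Pi.single j 1))) = (r ^ 2 / 2) • Q (dpT x) (dpT x) := by
    intro x
    rw [← dp_bil Q x, Finset.smul_sum]
    refine Finset.sum_congr rfl fun i _ => ?_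
    rw [Finset.smul_sum]
    refine Finset.sum_congr rfl fun j _ => ?_
    rw [smul_comm]
  refine ⟨gg, ((r • L.comp (dpT : R3 →L[ℝ] E3) : R3 →L[ℝ] EuclideanSpace ℝ (Fin N)) :
    R3 →ₗ[ℝ] EuclideanSpace ℝ (Fin N)), fun i j => (r ^ 2 / 2) • Q (dpT (Pi.single i 1))
        (dpT (Pi.single j 1)), l, hge, hg0, ?_, ?_, ?_, ?_⟩
  · intro i j
    show (r ^ 2 / 2) • Q (dpT (Pi.single i 1)) (dpT (Pi.single j 1)) =
      (r ^ 2 / 2) • Q (dpT (Pi.single j 1)) (dpT (Pi.single i 1))
    rw [hsym]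
  · refine (dp_exp hr h).congr_left fun x => ?_
    rw [hb x, hF, ha]
    rfl
  · intro x
    change l (r • L (dpT x)) = 0
    rw [map_smul, hL, smul_zero]
  · intro x hx
    have h2 : ∑ i, ∑ j, x i * x j * l ((r ^ 2 / 2) • Q (dpT (Pi.single i 1))
        (dpT (Pi.single j 1))) = l (∑ i, ∑ j, (x i * x j) • ((r ^ 2 / 2) •
          Q (dpT (Pi.single i 1)) (dpT (Pi.single j 1)))) := by
      simp only [map_sum, map_smul, smul_eq_mul]
    rw [h2, hb x, map_smul, smul_eq_mul]
    have h3 : dpT x ≠ 0 := fun h => hx ((map_eq_zero_iff dpT dpT.injective).1 h)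
    have h4 := hQ _ h3
    positivity

section defpt

variable {M : Type} {N : ℕ} {f : M → EuclideanSpace ℝ (Fin N)} {s : E3 → M} {y : E3}

private theorem dp_okV (hok : DpOk (fun z => f (s z)) y) (h : aff f) :
    DpOk (fun z => h.1 (s z)) y := by
  obtain ⟨h, m, c, rfl⟩ := h
  exact (dp_clm hok m.toContinuousLinearMap c).1

private noncomputable def dpD (hok : DpOk (fun z => f (s z)) y) (r : ℝ) : aff f →ₗ[ℝ] R3 where
  toFun h := fun i => r * fderiv ℝ (fun z => h.1 (s z)) y (dpT (Pi.single i 1))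
  map_add' h h' := by
    funext i
    have e1 : (fun z => (h + h').1 (s z)) = (fun z => h.1 (s z)) + fun z => h'.1 (s z) := rfl
    rw [e1, (dp_add (dp_okV hok h) (dp_okV hok h')).1]
    simp only [add_apply, Pi.add_apply]
    ring
  map_smul' t h := by
    funext i
    have e1 : (fun z => (t • h).1 (s z)) = t • fun z => h.1 (s z) := rfl
    rw [e1, (dp_smul (dp_okV hok h) t).1]
    simp only [smul_apply, Pi.smul_apply, smul_eq_mul, RingHom.id_apply]
    ring

private noncomputable def dpQ (hok : DpOk (fun z => f (s z)) y) (r : ℝ) :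
    aff f →ₗ[ℝ] Matrix (Fin 3) (Fin 3) ℝ where
  toFun h := fun i j => r ^ 2 / 2 * fderiv ℝ (fderiv ℝ (fun z => h.1 (s z))) y
    (dpT (Pi.single i 1)) (dpT (Pi.single j 1))
  map_add' h h' := by
    funext i j
    have e1 : (fun z => (h + h').1 (s z)) = (fun z => h.1 (s z)) + fun z => h'.1 (s z) := rfl
    rw [e1, (dp_add (dp_okV hok h) (dp_okV hok h')).2]
    simp only [add_apply]
    exact mul_add _ _ _
  map_smul' t h := by
    funext i j
    have e1 : (fun z => (t • h).1 (s z)) = t • fun z => h.1 (s z) := rfl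
    rw [e1, (dp_smul (dp_okV hok h) t).2]
    simp only [smul_apply, smul_eq_mul, RingHom.id_apply]
    exact mul_left_comm _ _ _

private theorem dpQ_symm (h1 : Tay2Stmt) (hok : DpOk (fun z => f (s z)) y) (r : ℝ) (h : aff f) :
    (dpQ hok r h).IsSymm := by
  ext i j
  rw [Matrix.transpose_apply]
  have h2 := (h1 _ _ y (dp_okV hok h).near (dp_okV hok h).snd).2
  change r ^ 2 / 2 * fderiv ℝ (fderiv ℝ (fun z => h.1 (s z))) y
    (dpT (Pi.single j 1)) (dpT (Pi.single i 1)) = r ^ 2 / 2 *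
    fderiv ℝ (fderiv ℝ (fun z => h.1 (s z))) y (dpT (Pi.single i 1)) (dpT (Pi.single j 1))
  rw [h2]

private theorem dpQ_qf (hok : DpOk (fun z => f (s z)) y) (r : ℝ) (h : aff f) (x : R3) :
    qf (dpQ hok r h) x =
      (r ^ 2 / 2) • fderiv ℝ (fderiv ℝ (fun z => h.1 (s z))) y (dpT x) (dpT x) := by
  rw [← dp_sum_bil]
  rfl

private theorem dpD_sum (hok : DpOk (fun z => f (s z)) y) (r : ℝ) (h : aff f) (x : R3) :
    ∑ i, dpD hok r h i * x i = r • fderiv ℝ (fun z => h.1 (s z)) y (dpT x) := by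
  rw [← dp_sum_lin]
  rfl

private theorem dp_expV (h1 : Tay2Stmt) (hok : DpOk (fun z => f (s z)) y) {r : ℝ} (hr : 0 < r)
    {gg : R3 → M} (hgg : ∀ x, gg x = s (dpG y r x)) (h : aff f) :
    (fun x : R3 => h.1 (gg x) - h.1 (s y) - ∑ i, dpD hok r h i * x i - qf (dpQ hok r h) x)
      =o[nhds 0] (fun x => ‖x‖ ^ 2) := by
  have h2 := dp_exp (H := fun z => h.1 (s z)) hr
    (h1 _ (fun z => h.1 (s z)) y (dp_okV hok h).near (dp_okV hok h).snd).1
  refine h2.congr_left fun x => ?_
  rw [dpQ_qf, dpD_sum, hgg]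

end defpt

theorem tDp (h1 : Tay2Stmt) : DpStmt := by
  intro M _ N f e y l hy hdiff hsnd hcrit
  obtain ⟨r, hr, hball⟩ := Metric.isOpen_iff.1 e.open_target y hy
  let B : OpenPartialHomeomorph E3 E3 := OpenPartialHomeomorph.univBall y r
  have hBs : B.source = Set.univ := OpenPartialHomeomorph.univBall_source y r
  have hBt : B.target = Metric.ball y r := OpenPartialHomeomorph.univBall_target y hr
  have hBm : ∀ x, B x ∈ Metric.ball y r := fun x => by
    rw [← hBt]
    exact B.map_source (by rw [hBs]; trivial)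
  have hGm : ∀ x, dpG y r x ∈ e.target := fun x => hball (hBm (dpT x))
  let gg : OpenPartialHomeomorph R3 M :=
    (dpT.toHomeomorph.toOpenPartialHomeomorph.trans B).trans e.symm
  have hgs : gg.source = Set.univ := by
    ext x
    simp only [gg, OpenPartialHomeomorph.trans_source, Set.mem_inter_iff, Set.mem_preimage,
      Set.mem_univ, iff_true, Homeomorph.toOpenPartialHomeomorph_source, true_and]
    refine ⟨by rw [hBs]; trivial, ?_⟩
    exact hGm x
  have hge : Topology.IsOpenEmbedding gg := gg.isOpenEmbedding hgs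
  have hgg : ∀ x, gg x = e.symm (dpG y r x) := fun x => rfl
  have hG0 : dpG y r 0 = y := by rw [dpG_eq hr, map_zero, smul_zero, add_zero]
  have hgg0 : gg 0 = e.symm y := by rw [hgg, hG0]
  have hok : DpOk (fun z => f (e.symm z)) y := by
    refine ⟨?_, hsnd⟩
    filter_upwards [e.open_target.mem_nhds hy] with z hz
    exact (hdiff z hz).differentiableAt (e.open_target.mem_nhds hz)
  obtain ⟨hc1, hc2⟩ := hcrit
  have hcl : ∀ c : ℝ, fderiv ℝ (fun z => l (f (e.symm z)) + c) y = 0 ∧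
      ∀ v w, fderiv ℝ (fderiv ℝ (fun z => l (f (e.symm z)) + c)) y v w =
        l (fderiv ℝ (fderiv ℝ (fun z => f (e.symm z))) y v w) := by
    intro c
    refine ⟨?_, (dp_clm hok l.toContinuousLinearMap c).2.2⟩
    rw [fderiv_add_const]
    exact hc1
  have el : (fun z => l (f (e.symm z)) + 0) = fun z => l (f (e.symm z)) := by
    funext z
    exact add_zero _
  have hl1 : ∀ v, l (fderiv ℝ (fun z => f (e.symm z)) y v) = 0 := by
    intro v
    have h2 := (dp_clm hok l.toContinuousLinearMap 0).2.1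
    have h3 := congrArg (fun L : E3 →L[ℝ] ℝ => L v) h2
    have h4 : fderiv ℝ (fun z => l (f (e.symm z)) + 0) y v =
      l (fderiv ℝ (fun z => f (e.symm z)) y v) := h3
    rw [← h4, (hcl 0).1]
    rfl
  have hpos : ∀ v : E3, v ≠ 0 →
      0 < l (fderiv ℝ (fderiv ℝ (fun z => f (e.symm z))) y v v) := by
    intro v hv
    rw [← (hcl 0).2, el]
    exact hc2 v hv
  obtain ⟨hexp, hsym⟩ := h1 _ _ y hok.near hok.snd
  refine ⟨dp_peano (F := fun z => f (e.symm z)) hr (fun x => rfl) rfl hge hgg0 hexp hsym l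
    hl1 hpos, ⟨{ g := gg
                 emb := hge
                 g0 := hgg0
                 d := dpD hok r
                 q := dpQ hok r
                 symm := dpQ_symm h1 hok r
                 exp := dp_expV h1 hok hr hgg
                 pos := ?_ }, ?_⟩⟩
  · refine ⟨⟨fun x => l (f x) + -(l (f (e.symm y))), l, -(l (f (e.symm y))), rfl⟩,
      add_neg_cancel _, ?_, dpQ_symm h1 hok r _, ?_⟩
    · funext i
      change r * fderiv ℝ (fun z => l (f (e.symm z)) + -(l (f (e.symm y)))) y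
        (dpT (Pi.single i 1)) = 0
      rw [(hcl _).1]
      simp
    · intro x hx
      rw [dpQ_qf]
      change 0 < (r ^ 2 / 2) • fderiv ℝ (fderiv ℝ
        (fun z => l (f (e.symm z)) + -(l (f (e.symm y))))) y (dpT x) (dpT x)
      rw [(hcl _).2, smul_eq_mul]
      have h3 : dpT x ≠ 0 := fun h => hx ((map_eq_zero_iff dpT dpT.injective).1 h)
      have h4 := hpos _ h3
      positivity
  · intro m
    constructor
    · intro hm
      funext i
      change r * fderiv ℝ (fun z => m.1 (e.symm z)) y (dpT (Pi.single i 1)) = 0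
      rw [hm]
      simp
    · intro hm
      funext i j
      change r ^ 2 / 2 * fderiv ℝ (fderiv ℝ (fun z => m.1 (e.symm z))) y
        (dpT (Pi.single i 1)) (dpT (Pi.single j 1)) = 0
      have h2 := (h1 _ _ y (dp_okV hok m).near (dp_okV hok m).snd).2
      have h3 := hm (dpT (Pi.single i 1) + dpT (Pi.single j 1))
      have h4 := hm (dpT (Pi.single i 1))
      have h5 := hm (dpT (Pi.single j 1))
      have h6 := h2 (dpT (Pi.single j 1)) (dpT (Pi.single i 1))
      simp only [map_add, add_apply] at h3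
      rw [h4, h5, h6] at h3
      have h7 : fderiv ℝ (fderiv ℝ (fun z => m.1 (e.symm z))) y
        (dpT (Pi.single i 1)) (dpT (Pi.single j 1)) = 0 := by linarith
      rw [h7, mul_zero]

end Ver

end TightRP
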