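import Pool.Agent.Lib.MP_7cdc3e_gt.A2.Spec

/-!
# A2/LipNull: Lipschitz maps send null sets to null sets
-/

set_option autoImplicit false

open HoloConj Pool.Agent.Lib.SingHom

namespace TightRP.Ver

open MeasureTheory MeasureTheory.Measure

theorem tLipNull : LipNullStmt := by
  intro P s N₀ K hP hN h0
  have hd : ((3 : ℕ) : ℝ) = (Module.finrank ℝ E3 : ℝ) := by
    rw [finrank_euclideanSpace, Fintype.card_fin]
  have hA : IsAddHaarMeasure (μH[((3 : ℕ) : ℝ)] : Measure E3) := by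
    rw [hd]
    infer_instance
  have h1 : (μH[((3 : ℕ) : ℝ)] : Measure E3) N₀ = 0 :=
    (absolutelyContinuous_isAddHaarMeasure (μH[((3 : ℕ) : ℝ)] : Measure E3) volume) h0
  have h2 : (μH[((3 : ℕ) : ℝ)] : Measure E3) (P '' N₀) = 0 := by
    have h3 := (hP.mono hN).hausdorffMeasure_image_le (d := ((3 : ℕ) : ℝ)) (Nat.cast_nonneg 3)
    rw [h1, mul_zero] at h3
    exact le_antisymm h3 zero_le
  exact (absolutelyContinuous_isAddHaarMeasure volume (μH[((3 : ℕ) : ℝ)] : Measure E3)) h2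

end TightRP.Ver
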