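import Pool.Agent.Lib.MP_7cdc3e_gt.A2.Spec

/-!
# MP_7cdc3e_gt, A2: second order necessary condition at a maximum
-/

open HoloConj Pool.Agent.Lib.SingHom

namespace TightRP.Ver

theorem tNeg (h1 : Tay2Stmt) : NegStmt := by
  intro h y hmax hd hdd
  have hz : fderiv ℝ h y = 0 := hmax.fderiv_eq_zero
  refine ⟨hz, fun v => ?_⟩
  by_contra hcon
  push Not at hcon
  obtain ⟨hexp, -⟩ := h1 ℝ h y hd hdd
  have hv : 0 < ‖v‖ := by
    rw [norm_pos_iff]
    rintro rfl
    simp at hcon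
  have hε : 0 < fderiv ℝ (fderiv ℝ h) y v v / (4 * ‖v‖ ^ 2) := by positivity
  have h2 := hexp.def hε
  have ht : Filter.Tendsto (fun t : ℝ => t • v) (nhds 0) (nhds 0) := by
    have hc : Continuous (fun t : ℝ => t • v) := by fun_prop
    simpa using hc.tendsto 0
  have h3 := ht.eventually h2
  have h4 : ∀ᶠ t : ℝ in nhds 0, h (y + t • v) ≤ h y := by
    have hc : Continuous (fun t : ℝ => y + t • v) := by fun_prop
    have h5 : Filter.Tendsto (fun t : ℝ => y + t • v) (nhds 0) (nhds y) := by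
      simpa using hc.tendsto 0
    exact h5.eventually hmax
  have h5 := h3.and h4
  rw [Metric.eventually_nhds_iff] at h5
  obtain ⟨δ, hδ, h5⟩ := h5
  have h6 := h5 (y := δ / 2) (by
    rw [Real.dist_eq, sub_zero, abs_of_pos (by positivity)]
    linarith)
  obtain ⟨h7, h8⟩ := h6
  rw [hz] at h7
  set q := fderiv ℝ (fderiv ℝ h) y v v with hq
  have h9 : fderiv ℝ (fderiv ℝ h) y ((δ / 2) • v) ((δ / 2) • v) = (δ / 2) ^ 2 * q := by
    rw [map_smul, map_smul, smul_eq_mul, hq]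
    show δ / 2 * ((δ / 2) • fderiv ℝ (fderiv ℝ h) y v v) = _
    rw [smul_eq_mul]
    ring
  rw [h9] at h7
  have hn : ‖‖(δ / 2) • v‖ ^ 2‖ = (δ / 2 * ‖v‖) ^ 2 := by
    rw [norm_pow, norm_norm, norm_smul, Real.norm_eq_abs, abs_of_pos (show 0 < δ / 2 by positivity)]
  rw [hn, Real.norm_eq_abs] at h7
  have h10 := (abs_le.mp h7).1
  have h11 : q / (4 * ‖v‖ ^ 2) * (δ / 2 * ‖v‖) ^ 2 = q * (δ / 2) ^ 2 / 4 := by
    field_simp
  rw [h11] at h10
  simp only [ContinuousLinearMap.zero_apply, smul_eq_mul, sub_zero] at h10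
  have h12 : 0 < q * (δ / 2) ^ 2 := by positivity
  nlinarith

end TightRP.Ver
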