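import Pool.Agent.Lib.MP_7cdc3e_gt.A2.Spec

/-!
# A2/Per: interior maxima of linear perturbations
-/

set_option autoImplicit false

open HoloConj Pool.Agent.Lib.SingHom

namespace TightRP.Ver

open MeasureTheory

theorem tPer : PerStmt := by
  intro h Ψ y₀ R hR hh hΨ hmax
  rw [eventually_nhdsWithin_iff, Metric.eventually_nhds_iff] at hmax
  obtain ⟨ε, hε, hmax⟩ := hmax
  obtain ⟨r, hr0, hrR, hrε⟩ : ∃ r : ℝ, 0 < r ∧ r < R ∧ r < ε :=
    ⟨min R ε / 2, by positivity, by
      have := min_le_left R ε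
      linarith [lt_min hR hε], by
      have := min_le_right R ε
      linarith [lt_min hR hε]⟩
  have hsub : Metric.closedBall y₀ r ⊆ Metric.ball y₀ R := Metric.closedBall_subset_ball hrR
  have hcomp : IsCompact (Metric.closedBall y₀ r) := isCompact_closedBall y₀ r
  have hsph : IsCompact (Metric.sphere y₀ r) := isCompact_sphere y₀ r
  have hy₀ : y₀ ∈ Metric.closedBall y₀ r := Metric.mem_closedBall_self hr0.le
  -- the gap on the sphere
  obtain ⟨μ, hμ0, hμ⟩ : ∃ μ : ℝ, 0 < μ ∧ ∀ y ∈ Metric.sphere y₀ r, μ ≤ h y₀ - h y := by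
    by_cases hne : (Metric.sphere y₀ r).Nonempty
    · obtain ⟨z, hz, hzmax⟩ := hsph.exists_isMaxOn hne
        (hh.mono (Metric.sphere_subset_closedBall.trans hsub))
      refine ⟨h y₀ - h z, ?_, fun y hy => ?_⟩
      · have hzz : dist z y₀ = r := hz
        have h1 : z ≠ y₀ := by
          rintro rfl
          rw [dist_self] at hzz
          exact hr0.ne hzz
        have h2 := hmax (show dist z y₀ < ε by rw [hzz]; exact hrε) h1
        linarith
      · have h3 : h y ≤ h z := hzmax hy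
        linarith
    · exact ⟨1, one_pos, fun y hy => absurd ⟨y, hy⟩ hne⟩
  obtain ⟨C, hC⟩ := hcomp.exists_bound_of_continuousOn
    (f := fun y => Ψ y - Ψ y₀) ((hΨ.mono hsub).sub continuousOn_const)
  have hC0 : 0 ≤ C := (norm_nonneg _).trans (hC y₀ hy₀)
  refine ⟨μ / (C + 1), by positivity, fun p hp => ?_⟩
  obtain ⟨y, hy, hymax⟩ := hcomp.exists_isMaxOn ⟨y₀, hy₀⟩
    (f := fun z => h z - inner ℝ p (Ψ z))
    ((hh.mono hsub).sub (continuousOn_const.inner (hΨ.mono hsub)))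
  have hyball : y ∈ Metric.ball y₀ r := by
    rcases lt_or_eq_of_le (Metric.mem_closedBall.1 hy) with h1 | h1
    · exact h1
    · exfalso
      have h2 := hμ y h1
      have h3 : h y₀ - inner ℝ p (Ψ y₀) ≤ h y - inner ℝ p (Ψ y) := hymax hy₀
      have h4 : inner ℝ p (Ψ y - Ψ y₀) = inner ℝ p (Ψ y) - inner ℝ p (Ψ y₀) := inner_sub_right _ _ _
      have h5 : |inner ℝ p (Ψ y - Ψ y₀)| ≤ ‖p‖ * ‖Ψ y - Ψ y₀‖ := abs_real_inner_le_norm _ _
      have h6 : ‖p‖ * ‖Ψ y - Ψ y₀‖ ≤ ‖p‖ * (C + 1) :=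
        mul_le_mul_of_nonneg_left ((hC y hy).trans (by linarith)) (norm_nonneg p)
      have h7 : ‖p‖ * (C + 1) < μ := by
        rwa [lt_div_iff₀ (by positivity)] at hp
      have h8 := neg_abs_le (inner ℝ p (Ψ y - Ψ y₀))
      linarith
  refine ⟨y, Metric.ball_subset_ball hrR.le hyball, ?_⟩
  filter_upwards [Metric.isOpen_ball.mem_nhds hyball] with z hz
  exact hymax (Metric.ball_subset_closedBall hz)

end TightRP.Ver
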