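import Pool.Agent.Lib.MP_7cdc3e_gt.A2.Spec

/-!
# Theorem A for `C^{1,1}` immersions, D6: definite points form a set of positive measure
-/

open HoloConj Pool.Agent.Lib.SingHom

namespace TightRP

namespace Ver

open MeasureTheory Set

section

variable {N : ℕ}

/-- the adjoint of `B ∘ A` as a linear function of `A` -/
private noncomputable def seteA (B : EuclideanSpace ℝ (Fin N) →L[ℝ] E3) :
    (E3 →L[ℝ] EuclideanSpace ℝ (Fin N)) →L[ℝ] (E3 →L[ℝ] E3) :=
  LinearMap.toContinuousLinearMap
    { toFun := fun A => ContinuousLinearMap.adjoint (B.comp A)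
      map_add' := fun A A' => by rw [ContinuousLinearMap.comp_add, map_add]
      map_smul' := fun r A => by
        rw [ContinuousLinearMap.comp_smul, map_smulₛₗ]
        simp }

private theorem seteA_inner (B : EuclideanSpace ℝ (Fin N) →L[ℝ] E3)
    (A : E3 →L[ℝ] EuclideanSpace ℝ (Fin N)) (p w : E3) :
    inner ℝ (seteA B A p) w = inner ℝ p (B (A w)) := by
  show inner ℝ (ContinuousLinearMap.adjoint (B.comp A) p) w = _
  rw [ContinuousLinearMap.adjoint_inner_left]
  rfl

/-- the gradient of `L ∘ A` as a linear function of `A` -/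
private noncomputable def seteG (L : EuclideanSpace ℝ (Fin N) →L[ℝ] ℝ) :
    (E3 →L[ℝ] EuclideanSpace ℝ (Fin N)) →L[ℝ] E3 :=
  LinearMap.toContinuousLinearMap
    { toFun := fun A => (InnerProductSpace.toDual ℝ E3).symm (L.comp A)
      map_add' := fun A A' => by rw [ContinuousLinearMap.comp_add, map_add]
      map_smul' := fun r A => by
        rw [ContinuousLinearMap.comp_smul, map_smulₛₗ]
        simp }

private theorem seteG_inner (L : EuclideanSpace ℝ (Fin N) →L[ℝ] ℝ)
    (A : E3 →L[ℝ] EuclideanSpace ℝ (Fin N)) (w : E3) :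
    inner ℝ (seteG L A) w = L (A w) := by
  show inner ℝ ((InnerProductSpace.toDual ℝ E3).symm (L.comp A)) w = _
  rw [InnerProductSpace.toDual_symm_apply]
  rfl

/-- the inner product as a linear map to linear forms -/
private noncomputable def seteJ : E3 →L[ℝ] (E3 →L[ℝ] ℝ) :=
  LinearMap.toContinuousLinearMap
    { toFun := fun x => innerSL ℝ x
      map_add' := fun x y => map_add _ x y
      map_smul' := fun r x => by rw [map_smulₛₗ]; simp }

private theorem seteJ_apply (x w : E3) : seteJ x w = inner ℝ x w := by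
  show innerSL ℝ x w = _
  rw [innerSL_apply_apply]

end

theorem tSet (h1 : LipNullStmt) (h2 : PerStmt) (h3 : SolStmt) (h4 : NegStmt) (h5 : Tay2Stmt) :
    SetStmt := by
  intro M _ N f hf
  obtain ⟨e, y₀, l, K, hy₀, hdiff, hLip, hinj, hmax⟩ := hf
  let F : E3 → EuclideanSpace ℝ (Fin N) := fun y => f (e.symm y)
  let T : Set E3 := e.target
  have hTo : IsOpen T := e.open_target
  have hFd : ∀ z ∈ T, DifferentiableAt ℝ F z := fun z hz =>
    (hdiff z hz).differentiableAt (hTo.mem_nhds hz)
  let L : EuclideanSpace ℝ (Fin N) →L[ℝ] ℝ := LinearMap.toContinuousLinearMap l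
  have hLl : ∀ w, L w = l w := fun w => rfl
  -- the left inverse
  obtain ⟨B0, hB0⟩ := LinearMap.exists_leftInverse_of_injective
    (fderiv ℝ F y₀ : E3 →ₗ[ℝ] EuclideanSpace ℝ (Fin N)) (LinearMap.ker_eq_bot.2 hinj)
  let B : EuclideanSpace ℝ (Fin N) →L[ℝ] E3 := LinearMap.toContinuousLinearMap B0
  have hB : ∀ w, B (fderiv ℝ F y₀ w) = w := fun w => LinearMap.congr_fun hB0 w
  let a : E3 → E3 →L[ℝ] E3 := fun y => seteA B (fderiv ℝ F y)
  let g : E3 → E3 := fun y => seteG L (fderiv ℝ F y)
  have ha : ∀ y p w, inner ℝ (a y p) w = inner ℝ p (B (fderiv ℝ F y w)) := fun y p w =>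
    seteA_inner B _ p w
  have hg : ∀ y w, inner ℝ (g y) w = L (fderiv ℝ F y w) := fun y w => seteG_inner L _ w
  have hLa : LipschitzOnWith (‖seteA (N := N) B‖₊ * K) a T :=
    (seteA B).lipschitz.comp_lipschitzOnWith hLip
  have hLg : LipschitzOnWith (‖seteG (N := N) L‖₊ * K) g T :=
    (seteG L).lipschitz.comp_lipschitzOnWith hLip
  have ha0 : a y₀ = ContinuousLinearMap.id ℝ E3 := by
    ext1 p
    apply ext_inner_right ℝ
    intro w
    rw [ha, hB]
    rfl
  obtain ⟨r, P, K'', hr, hrT, hPL, hainj, hsol, hder⟩ := h3 a g T y₀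
    (max (‖seteA (N := N) B‖₊ * K) (‖seteG (N := N) L‖₊ * K)) hTo hy₀
    (hLa.weaken (le_max_left _ _)) (hLg.weaken (le_max_right _ _)) ha0
  -- the perturbed height functions
  let hp : E3 → E3 → ℝ := fun p z => L (F z) - inner ℝ p (B (F z))
  have hpd : ∀ p, ∀ z ∈ T, HasFDerivAt (hp p) (seteJ (g z - a z p)) z := by
    intro p z hz
    have k1 : HasFDerivAt F (fderiv ℝ F z) z := (hFd z hz).hasFDerivAt
    have k2 : HasFDerivAt (fun z => L (F z)) (L.comp (fderiv ℝ F z)) z :=
      L.hasFDerivAt.comp z k1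
    have k3 : HasFDerivAt (fun z => seteJ p (B (F z)))
        ((seteJ p).comp (B.comp (fderiv ℝ F z))) z :=
      (seteJ p).hasFDerivAt.comp z (B.hasFDerivAt.comp z k1)
    have k4 := k2.sub k3
    have k5 : (fun z => L (F z) - seteJ p (B (F z))) = hp p := by
      funext z
      simp only [hp, seteJ_apply]
    have k6 : L.comp (fderiv ℝ F z) - (seteJ p).comp (B.comp (fderiv ℝ F z)) =
        seteJ (g z - a z p) := by
      ext w
      simp only [sub_apply, ContinuousLinearMap.comp_apply, seteJ_apply,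
        inner_sub_left, ha, hg]
    rw [k6] at k4
    exact k4
  have hFc : ContinuousOn F T := fun z hz => (hFd z hz).continuousAt.continuousWithinAt
  obtain ⟨δ, hδ, hper⟩ := h2 (fun y => L (F y)) (fun y => B (F y)) y₀ r hr
    (L.continuous.comp_continuousOn (hFc.mono hrT))
    (B.continuous.comp_continuousOn (hFc.mono hrT)) hmax
  -- the sets
  let S₀ : Set E3 := {y | y ∈ Metric.ball y₀ r ∧ IsLocalMax (hp (P y)) y}
  let DF : E3 → E3 →L[ℝ] EuclideanSpace ℝ (Fin N) := fderiv ℝ F
  let N₀ : Set E3 := {y | y ∈ Metric.ball y₀ r ∧ ¬ DifferentiableAt ℝ DF y}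
  let Z : Set E3 := {y | y ∈ Metric.ball y₀ r ∧ DifferentiableAt ℝ DF y ∧ (fderiv ℝ P y).det = 0}
  let S : Set E3 := {y | y ∈ S₀ ∧ DifferentiableAt ℝ DF y ∧ (fderiv ℝ P y).det ≠ 0}
  have hcover : Metric.ball (0 : E3) δ ⊆ P '' S ∪ (P '' N₀ ∪ P '' Z) := by
    intro p hpδ
    obtain ⟨y, hy, hym⟩ := hper p (mem_ball_zero_iff.1 hpδ)
    have k1 : IsLocalMax (hp p) y := hym
    have k2 := k1.hasFDerivAt_eq_zero (hpd p y (hrT hy))
    have k3 : g y = a y p := by
      apply ext_inner_right ℝ
      intro w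
      have k7 : seteJ (g y - a y p) w = 0 := by
        rw [k2]
        rfl
      rw [seteJ_apply, inner_sub_left] at k7
      exact sub_eq_zero.1 k7
    have k4 : p = P y := (hsol y hy p).1 k3
    have k5 : y ∈ S₀ := ⟨hy, by rw [← k4]; exact k1⟩
    by_cases hd : DifferentiableAt ℝ DF y
    · by_cases hdet : (fderiv ℝ P y).det = 0
      · exact Or.inr (Or.inr ⟨y, ⟨hy, hd, hdet⟩, k4.symm⟩)
      · exact Or.inl ⟨y, ⟨k5, hd, hdet⟩, k4.symm⟩
    · exact Or.inr (Or.inl ⟨y, ⟨hy, hd⟩, k4.symm⟩)
  have hder' : ∀ y ∈ Metric.ball y₀ r, DifferentiableAt ℝ DF y → DifferentiableAt ℝ P y ∧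
      DifferentiableAt ℝ a y ∧ DifferentiableAt ℝ g y ∧
      ∀ v, fderiv ℝ (fun z => g z - a z (P y)) y v = a y (fderiv ℝ P y v) := by
    intro y hy hd
    have k1 : DifferentiableAt ℝ a y := (seteA B).differentiableAt.comp y hd
    have k2 : DifferentiableAt ℝ g y := (seteG L).differentiableAt.comp y hd
    obtain ⟨k3, k4⟩ := hder y hy k1 k2
    exact ⟨k3, k1, k2, k4⟩
  have hN₀ : volume N₀ = 0 := by
    have k1 := hLip.ae_differentiableWithinAt_of_mem (μ := (volume : Measure E3))
    rw [ae_iff] at k1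
    refine measure_mono_null ?_ k1
    rintro y ⟨hy, hyd⟩ hcon
    exact hyd ((hcon (hrT hy)).differentiableAt (hTo.mem_nhds (hrT hy)))
  have hPN₀ : volume (P '' N₀) = 0 := h1 P (Metric.ball y₀ r) N₀ K'' hPL (fun y hy => hy.1) hN₀
  have hPZ : volume (P '' Z) = 0 := by
    apply addHaar_image_eq_zero_of_det_fderivWithin_eq_zero volume (f' := fun y => fderiv ℝ P y)
    · intro y hy
      exact (hder' y hy.1 hy.2.1).1.hasFDerivAt.hasFDerivWithinAt
    · intro y hy
      exact hy.2.2
  refine ⟨e, S, hdiff, fun y hy => hrT hy.1.1, ?_, ?_⟩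
  · intro hS
    have k1 : volume (P '' S) = 0 :=
      h1 P (Metric.ball y₀ r) S K'' hPL (fun y hy => hy.1.1) hS
    have k2 : volume (Metric.ball (0 : E3) δ) = 0 := by
      refine measure_mono_null hcover ?_
      exact measure_union_null k1 (measure_union_null hPN₀ hPZ)
    exact (Metric.measure_ball_pos volume (0 : E3) hδ).ne' k2
  · rintro y ⟨⟨hy, hym⟩, hd, hdet⟩
    refine ⟨hd, ?_⟩
    obtain ⟨k1, k2, k3, k4⟩ := hder' y hy hd
    have hyT : y ∈ T := hrT hy
    have hev : ∀ᶠ z in nhds y, z ∈ T := hTo.mem_nhds hyT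
    let p : E3 := P y
    have hf1 : ∀ᶠ z in nhds y, DifferentiableAt ℝ (hp p) z := by
      filter_upwards [hev] with z hz
      exact (hpd p z hz).differentiableAt
    have hf2 : fderiv ℝ (hp p) =ᶠ[nhds y] fun z => seteJ (g z - a z p) := by
      filter_upwards [hev] with z hz
      exact (hpd p z hz).fderiv
    have hga : DifferentiableAt ℝ (fun z => g z - a z p) y :=
      k3.sub (k2.clm_apply (differentiableAt_const p))
    have hJ : HasFDerivAt (fun z => seteJ (g z - a z p))
        (seteJ.comp (fderiv ℝ (fun z => g z - a z p) y)) y :=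
      seteJ.hasFDerivAt.comp y hga.hasFDerivAt
    have hf3 : HasFDerivAt (fderiv ℝ (hp p)) (seteJ.comp (fderiv ℝ (fun z => g z - a z p) y)) y :=
      hJ.congr_of_eventuallyEq hf2
    have hbv : ∀ v w, fderiv ℝ (fderiv ℝ (hp p)) y v w = inner ℝ (a y (fderiv ℝ P y v)) w := by
      intro v w
      rw [hf3.fderiv, ContinuousLinearMap.comp_apply, seteJ_apply, k4 v]
    obtain ⟨hz, hneg⟩ := h4 (hp p) y hym hf1 hf3.differentiableAt
    have hsym := (h5 ℝ (hp p) y hf1 hf3.differentiableAt).2
    -- definiteness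
    have hdef : ∀ v, v ≠ 0 → fderiv ℝ (fderiv ℝ (hp p)) y v v < 0 := by
      intro v hv
      rcases (hneg v).lt_or_eq with h | h
      · exact h
      · exfalso
        apply hv
        have hb : ∀ w, fderiv ℝ (fderiv ℝ (hp p)) y v w = 0 := by
          intro w
          set b := fderiv ℝ (fderiv ℝ (hp p)) y with hbdef
          have key : ∀ t : ℝ, 2 * t * b v w + t ^ 2 * b w w ≤ 0 := by
            intro t
            have h6 := hneg (v + t • w)
            simp only [map_add, add_apply, map_smul, smul_apply,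
              smul_eq_mul] at h6
            rw [h, hsym w v] at h6
            linarith
          by_contra hne
          have hw := hneg w
          have h7 := key (b v w / (1 + |b w w|))
          have h8 : 0 < 1 + |b w w| := by positivity
          have h9 : 0 < (b v w) ^ 2 := by positivity
          have h10 : 2 * (b v w / (1 + |b w w|)) * b v w + (b v w / (1 + |b w w|)) ^ 2 * b w w =
              (b v w) ^ 2 * (2 * (1 + |b w w|) + b w w) / (1 + |b w w|) ^ 2 := by
            field_simp
          rw [h10] at h7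
          have h11 : 0 < (b v w) ^ 2 * (2 * (1 + |b w w|) + b w w) / (1 + |b w w|) ^ 2 := by
            apply div_pos _ (by positivity)
            apply mul_pos h9
            have := neg_abs_le (b w w)
            have := abs_nonneg (b w w)
            linarith
          linarith
        have hav : a y (fderiv ℝ P y v) = 0 := by
          apply ext_inner_right ℝ
          intro w
          rw [← hbv, hb, inner_zero_left]
        have hPv : fderiv ℝ P y v = 0 := by
          apply hainj y hy
          rw [hav, map_zero]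
        have hdet' : LinearMap.det (fderiv ℝ P y : E3 →ₗ[ℝ] E3) ≠ 0 := hdet
        exact (LinearMap.equivOfDetNeZero _ hdet').injective (hPv.trans (map_zero _).symm)
    -- the linear form
    refine ⟨(((seteJ p).comp B) - L : EuclideanSpace ℝ (Fin N) →L[ℝ] ℝ).toLinearMap, ?_, ?_⟩
    · have h6 : (fun z => ((((seteJ p).comp B) - L :
          EuclideanSpace ℝ (Fin N) →L[ℝ] ℝ).toLinearMap) (f (e.symm z))) = fun z => -(hp p z) := by
        funext z
        show (seteJ p) (B (F z)) - L (F z) = -(L (F z) - inner ℝ p (B (F z)))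
        rw [seteJ_apply]
        ring
      rw [h6, fderiv_fun_neg, hz, neg_zero]
    · intro v hv
      have h6 : (fun z => ((((seteJ p).comp B) - L :
          EuclideanSpace ℝ (Fin N) →L[ℝ] ℝ).toLinearMap) (f (e.symm z))) = fun z => -(hp p z) := by
        funext z
        show (seteJ p) (B (F z)) - L (F z) = -(L (F z) - inner ℝ p (B (F z)))
        rw [seteJ_apply]
        ring
      have h7 : fderiv ℝ (fun z => -(hp p z)) = fun z => -(fderiv ℝ (hp p) z) := by
        funext z
        exact fderiv_fun_neg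
      rw [h6, h7, fderiv_fun_neg]
      have h8 := hdef v hv
      show 0 < -(fderiv ℝ (fderiv ℝ (hp p)) y v v)
      linarith

end Ver

end TightRP
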