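import Pool.Agent.Lib.MP_7cdc3e_gt.A2.Spec

/-!
# A2/Sol: the solution of the critical equation
-/

set_option autoImplicit false

open HoloConj Pool.Agent.Lib.SingHom

namespace TightRP.Ver

open MeasureTheory

theorem tSol : SolStmt := by
  intro a g T y₀ K hT hy₀ ha hg ha0
  obtain ⟨ε, hε, hεT⟩ := Metric.isOpen_iff.1 hT y₀ hy₀
  obtain ⟨r, hr0, hrε, hrK, hr1⟩ : ∃ r : ℝ, 0 < r ∧ r ≤ ε ∧ K * r ≤ 1 / 2 ∧ r ≤ 1 := by
    have hK0 : (0 : ℝ) < K + 1 := by positivity
    refine ⟨min ε (1 / (2 * (K + 1))), by positivity, min_le_left _ _, ?_, ?_⟩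
    · calc (K : ℝ) * min ε (1 / (2 * (K + 1))) ≤ (K + 1) * (1 / (2 * (K + 1))) := by
            gcongr
            · linarith
            · exact min_le_right _ _
        _ = 1 / 2 := by field_simp
    · refine (min_le_right _ _).trans ?_
      rw [div_le_one (by positivity)]
      have : (0 : ℝ) ≤ K := K.2
      linarith
  have hball : Metric.ball y₀ r ⊆ T := (Metric.ball_subset_ball hrε).trans hεT
  -- closeness to the identity
  have hclose : ∀ y ∈ Metric.ball y₀ r, ‖a y - 1‖ ≤ 1 / 2 := by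
    intro y hy
    have h1 := ha.dist_le_mul y (hball hy) y₀ hy₀
    rw [dist_eq_norm, ha0] at h1
    refine h1.trans ((mul_le_mul_of_nonneg_left (Metric.mem_ball.1 hy).le K.2).trans hrK)
  have hlow : ∀ y ∈ Metric.ball y₀ r, ∀ v : E3, ‖v‖ ≤ 2 * ‖a y v‖ := by
    intro y hy v
    have h1 : ‖(a y - 1) v‖ ≤ 1 / 2 * ‖v‖ :=
      ((a y - 1).le_opNorm v).trans (mul_le_mul_of_nonneg_right (hclose y hy) (norm_nonneg v))
    have h2 : v = a y v - (a y - 1) v := by simp
    have h3 : ‖v‖ ≤ ‖a y v‖ + ‖(a y - 1) v‖ := by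
      conv_lhs => rw [h2]
      exact norm_sub_le _ _
    linarith
  have hinj : ∀ y ∈ Metric.ball y₀ r, Function.Injective (a y) := by
    intro y hy v w hvw
    have h1 := hlow y hy (v - w)
    rw [map_sub, hvw, sub_self, norm_zero, mul_zero] at h1
    exact sub_eq_zero.1 (norm_le_zero_iff.1 h1)
  have hunit : ∀ y ∈ Metric.ball y₀ r, IsUnit (a y) := by
    intro y hy
    have h1 : ‖1 - a y‖ < 1 := by
      rw [norm_sub_rev]
      exact lt_of_le_of_lt (hclose y hy) (by norm_num)
    have h2 := (Units.oneSub (1 - a y) h1).isUnit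
    rwa [Units.val_oneSub, sub_sub_cancel] at h2
  obtain ⟨P, hP⟩ : ∃ P : E3 → E3, P = fun y => (Ring.inverse (a y)) (g y) := ⟨_, rfl⟩
  have haP : ∀ y ∈ Metric.ball y₀ r, a y (P y) = g y := by
    intro y hy
    have h1 : a y * Ring.inverse (a y) = 1 := Ring.mul_inverse_cancel _ (hunit y hy)
    have h2 := congrArg (fun A : E3 →L[ℝ] E3 => A (g y)) h1
    rw [hP]
    simpa using h2
  have hPbound : ∀ y ∈ Metric.ball y₀ r, ‖P y‖ ≤ 2 * (‖g y₀‖ + K) := by
    intro y hy
    have h1 := hlow y hy (P y)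
    rw [haP y hy] at h1
    have h2 := hg.dist_le_mul y (hball hy) y₀ hy₀
    rw [dist_eq_norm] at h2
    have h3 : (K : ℝ) * dist y y₀ ≤ K * 1 :=
      mul_le_mul_of_nonneg_left ((Metric.mem_ball.1 hy).le.trans hr1) K.2
    have h4 : ‖g y‖ ≤ ‖g y₀‖ + ‖g y - g y₀‖ := by
      have h5 := norm_add_le (g y₀) (g y - g y₀)
      rwa [add_sub_cancel] at h5
    linarith
  obtain ⟨M, hM⟩ : ∃ M : ℝ, M = 2 * (K + K * (2 * (‖g y₀‖ + K))) := ⟨_, rfl⟩
  have hM0 : 0 ≤ M := by
    rw [hM]
    positivity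
  refine ⟨r, P, ⟨M, hM0⟩, hr0, hball, ?_, hinj, ?_, ?_⟩
  · refine LipschitzOnWith.of_dist_le_mul fun y hy z hz => ?_
    have h1 := hlow y hy (P y - P z)
    have h2 : a y (P y - P z) = (g y - g z) + (a z - a y) (P z) := by
      rw [map_sub, haP y hy, ContinuousLinearMap.sub_apply, haP z hz]
      abel
    have h3 : ‖g y - g z‖ ≤ K * dist y z := by
      rw [← dist_eq_norm]
      exact hg.dist_le_mul y (hball hy) z (hball hz)
    have h4 : ‖(a z - a y) (P z)‖ ≤ (K * dist y z) * (2 * (‖g y₀‖ + K)) := by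
      refine ((a z - a y).le_opNorm (P z)).trans ?_
      have h5 : ‖a z - a y‖ ≤ K * dist y z := by
        rw [← dist_eq_norm, dist_comm y z]
        exact ha.dist_le_mul z (hball hz) y (hball hy)
      exact mul_le_mul h5 (hPbound z hz) (norm_nonneg _) (by positivity)
    have h5 : ‖(g y - g z) + (a z - a y) (P z)‖ ≤
        K * dist y z + (K * dist y z) * (2 * (‖g y₀‖ + K)) :=
      (norm_add_le _ _).trans (add_le_add h3 h4)
    rw [h2] at h1
    rw [dist_eq_norm (P y)]
    change ‖P y - P z‖ ≤ M * dist y z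
    rw [hM]
    linarith
  · intro y hy p
    constructor
    · intro h1
      apply hinj y hy
      rw [haP y hy, h1]
    · rintro rfl
      exact (haP y hy).symm
  · intro y hy hay hgy
    have hPd : DifferentiableAt ℝ P y := by
      rw [hP]
      have h1 : DifferentiableAt ℝ (fun z => Ring.inverse (a z)) y :=
        (differentiableAt_inverse (hunit y hy)).comp y hay
      exact h1.clm_apply hgy
    refine ⟨hPd, fun v => ?_⟩
    have hev : g =ᶠ[nhds y] fun z => a z (P z) := by
      filter_upwards [Metric.isOpen_ball.mem_nhds hy] with z hz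
      exact (haP z hz).symm
    have h1 : HasFDerivAt g ((a y).comp (fderiv ℝ P y) + (fderiv ℝ a y).flip (P y)) y :=
      (hay.hasFDerivAt.clm_apply hPd.hasFDerivAt).congr_of_eventuallyEq hev
    have h2 : HasFDerivAt (fun z => a z (P y)) ((fderiv ℝ a y).flip (P y)) y := by
      have h3 := hay.hasFDerivAt.clm_apply (hasFDerivAt_const (P y) y)
      simpa using h3
    have h3 : fderiv ℝ (fun z => g z - a z (P y)) y =
        (a y).comp (fderiv ℝ P y) + (fderiv ℝ a y).flip (P y) - (fderiv ℝ a y).flip (P y) :=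
      (h1.sub h2).fderiv
    rw [h3]
    simp

end TightRP.Ver
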