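import Pool.Agent.Lib.MP_7cdc3e_gt.A2.Spec

/-!
# MP_7cdc3e_gt, module A2/Tay2: the second order expansion at a point where the derivative is
differentiable
-/

open HoloConj Pool.Agent.Lib.SingHom

namespace TightRP

namespace Ver

open Asymptotics Filter

theorem tTay2 : Tay2Stmt := by
  intro G _ _ F y₀ hd hdd
  set B : E3 →L[ℝ] E3 →L[ℝ] G := fderiv ℝ (fderiv ℝ F) y₀ with hB
  have hsym : ∀ v w, B v w = B w v := by
    intro v w
    exact second_derivative_symmetric_of_eventually (hd.mono fun z hz => hz.hasFDerivAt)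
      hdd.hasFDerivAt v w
  refine ⟨?_, hsym⟩
  set φ : E3 → G := fun v => F (y₀ + v) - F y₀ - fderiv ℝ F y₀ v - (1 / 2 : ℝ) • B v v with hφ
  have hφ' : ∀ y, DifferentiableAt ℝ F (y₀ + y) →
      HasFDerivAt φ (fderiv ℝ F (y₀ + y) - fderiv ℝ F y₀ - B y) y := by
    intro y hy
    have k1 : HasFDerivAt (fun y => F (y₀ + y)) (fderiv ℝ F (y₀ + y)) y := by
      have := hy.hasFDerivAt.comp y ((hasFDerivAt_id y).const_add y₀)
      rw [ContinuousLinearMap.comp_id] at this
      exact this
    have k2 : HasFDerivAt (fun y => B y y) ((B y).comp (ContinuousLinearMap.id ℝ E3) + B.flip y) y :=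
      B.hasFDerivAt.clm_apply (hasFDerivAt_id y)
    have k3 : HasFDerivAt (fun y => (1 / 2 : ℝ) • B y y) (B y) y := by
      have := k2.const_smul (1 / 2 : ℝ)
      refine this.congr_fderiv ?_
      ext w
      simp only [smul_apply, add_apply,
        ContinuousLinearMap.comp_apply, ContinuousLinearMap.flip_apply]
      rw [ContinuousLinearMap.id_apply, hsym w y, ← two_smul ℝ, smul_smul]
      norm_num
    exact ((k1.sub_const (F y₀)).sub (fderiv ℝ F y₀).hasFDerivAt).sub k3
  have hφ0 : φ 0 = 0 := by simp [hφ]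
  have hlit := hasFDerivAt_iff_isLittleO_nhds_zero.mp hdd.hasFDerivAt
  have hev : ∀ᶠ v in nhds (0 : E3), DifferentiableAt ℝ F (y₀ + v) := by
    have hc : Tendsto (fun v : E3 => y₀ + v) (nhds 0) (nhds y₀) := by
      have : ContinuousAt (fun v : E3 => y₀ + v) 0 := by fun_prop
      simpa [ContinuousAt] using this
    exact hc.eventually hd
  rw [isLittleO_iff] at hlit ⊢
  intro c hc
  have h1 := (hlit hc).and hev
  rw [Metric.eventually_nhds_iff_ball] at h1 ⊢
  obtain ⟨ε, hε, h1⟩ := h1
  refine ⟨ε, hε, fun y hy => ?_⟩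
  have hmem : ∀ z ∈ Metric.closedBall (0 : E3) ‖y‖, z ∈ Metric.ball (0 : E3) ε := by
    intro z hz
    rw [mem_closedBall_zero_iff] at hz
    rw [mem_ball_zero_iff] at hy ⊢
    exact lt_of_le_of_lt hz hy
  have h2 := (convex_closedBall (0 : E3) ‖y‖).norm_image_sub_le_of_norm_hasFDerivWithin_le
    (f := φ) (f' := fun z => fderiv ℝ F (y₀ + z) - fderiv ℝ F y₀ - B z) (C := c * ‖y‖)
    (x := 0) (y := y) (fun z hz => (hφ' z (h1 z (hmem z hz)).2).hasFDerivWithinAt) (by
      intro z hz
      refine (h1 z (hmem z hz)).1.trans ?_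
      rw [mem_closedBall_zero_iff] at hz
      gcongr) (by simp) (by simp)
  rw [hφ0, sub_zero, sub_zero] at h2
  refine h2.trans (le_of_eq ?_)
  rw [norm_pow, norm_norm]
  ring

end Ver

end TightRP
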