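import Pool.Agent.Lib.MP_7cdc3e_gt.A2.FinC
import Pool.Agent.Lib.MP_7cdc3e_gt.A2.C11
import Pool.Agent.Lib.MP_7cdc3e_gt.A2.Den
import Pool.Agent.Lib.MP_7cdc3e_gt.A2.Dp
import Pool.Agent.Lib.MP_7cdc3e_gt.A2.LipNull
import Pool.Agent.Lib.MP_7cdc3e_gt.A2.Neg
import Pool.Agent.Lib.MP_7cdc3e_gt.A2.Per
import Pool.Agent.Lib.MP_7cdc3e_gt.A2.Sete
import Pool.Agent.Lib.MP_7cdc3e_gt.A2.Sol
import Pool.Agent.Lib.MP_7cdc3e_gt.A2.Tay2
import Pool.Agent.Lib.MP_7cdc3e_gt.A.Join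
import Pool.Agent.Lib.MP_7cdc3e_gt.A.Conn
import Pool.Agent.Lib.MP_7cdc3e_gt.A.Cross
import Pool.Agent.Lib.MP_7cdc3e_gt.A.Dim
import Pool.Agent.Lib.MP_7cdc3e_gt.A.Ball
import Pool.Agent.Lib.MP_7cdc3e_gt.A.Supp
import Pool.Agent.Lib.MP_7cdc3e_gt.A.Max
import Pool.Agent.Lib.MP_7cdc3e_gt.A.Frm
import Pool.Agent.Lib.MP_7cdc3e_gt.A.Odd
import Pool.Agent.Lib.MP_7cdc3e_gt.A.Null
import Pool.Agent.Lib.MP_7cdc3e_gt.A.Fam
import Pool.Agent.Lib.MP_7cdc3e_gt.A.Rot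
import Pool.Agent.Lib.MP_7cdc3e_gt.A.RkOne
import Pool.Agent.Lib.MP_7cdc3e_gt.A.R1
import Pool.Agent.Lib.MP_7cdc3e_gt.A.Cong
import Pool.Agent.Lib.MP_7cdc3e_gt.A.Pair
import Pool.Agent.Lib.MP_7cdc3e_gt.A.Trip
import Pool.Agent.Lib.MP_7cdc3e_gt.A.Dom
import Pool.Agent.Lib.MP_7cdc3e_gt.A.One
import Pool.Agent.Lib.MP_7cdc3e_gt.A.Fib
import Pool.Agent.Lib.MP_7cdc3e_gt.A.Hom
import Pool.Agent.Lib.MP_7cdc3e_gt.A.Sys
import Pool.Agent.Lib.MP_7cdc3e_gt.A.Glo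
import Pool.Agent.Lib.MP_7cdc3e_gt.A.Tay
import Pool.Agent.Lib.MP_7cdc3e_gt.A.Nbh
import Pool.Agent.Lib.MP_7cdc3e_gt.A.QuadE
import Pool.Agent.Lib.MP_7cdc3e_gt.A.Smo
import Pool.Agent.Lib.MP_7cdc3e_gt.Contr
import Pool.Agent.Lib.MP_7cdc3e_gt.H0Path
import Pool.Agent.Lib.MP_7cdc3e_gt.H0Low
import Pool.Agent.Lib.MP_7cdc3e_gt.MVUp
import Pool.Agent.Lib.MP_7cdc3e_gt.Homeo
import Pool.Agent.Lib.MP_7cdc3e_gt.RPTop
import Pool.Agent.Lib.MP_7cdc3e_gt.RPHom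

/-!
# Theorem A for `C^{1,1}` immersions: everything together
-/

namespace TightRP

namespace Ver

theorem finalC : FinalCStmt := by
  have hRH : RPHomStmt := rHom tContr tH0Path (tMVUp tContr tH0Path) tHomeo
  have hConn : ConnStmt := tConn tH0Path tH0Low
  have hBall : BallStmt := tBall tContr
  have hMax : MaxStmt := tMax hConn
  have hFrm : FrmStmt := tFrm hMax
  have hOdd : OddStmt := tOdd tCross hBall tSupp tJoin
  have hNul : NulStmt := tNul hOdd hConn tJoin tDim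
  have hR1 : R1Stmt := tR1 hMax hFrm (tFam hFrm) (tRot hConn tJoin tSupp hBall hOdd hNul) rkOneStmt
  have hTrip : TripStmt := tTrip (tPair congStmt)
  have hOne : OneStmt := tOne tDom
  have hHom : HomStmt := tHom hOne (tFib hOne hConn) rTop
  have hA : FinalAStmt := final_of rTop hRH tSys hFrm hR1 hTrip tGlo tTay
    (tQuad hR1 (tNbh hFrm tTay) tGlo hTrip) hHom smo
  have hSet : SetStmt := tSet tLipNull tPer tSol (tNeg tTay2) tTay2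
  exact finC_of hA (tC11 hSet tDen (tDp tTay2) tTay2 hFrm hR1) rTop hRH tSys

end Ver

end TightRP
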