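import Pool.Agent.Lib.MP_7cdc3e_gt.A2.Spec

/-!
# Theorem A for `C^{1,1}` immersions: assembly
-/

open HoloConj Pool.Agent.Lib.SingHom

namespace TightRP

namespace Ver

theorem finC_of (hA : FinalAStmt) (hC : C11Stmt) (hRT : RPTopStmt) (hRH : RPHomStmt)
    (hSys : SysStmt) : FinalCStmt := by
  intro F _ N hN f hf hi hs ht hd
  have i1 := hRT.1
  have i2 := compact_RP3
  have i3 := hRT.2.2
  obtain ⟨hV, -⟩ := hSys F RP3 hRT.2.1 (hRH F) N f hN hf hi hs ht
  exact hA F N hN f hf hi hs ht (Or.inr (hd.elim (hC F RP3 N f hV) id))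

end Ver

end TightRP
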