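import Pool.Agent.Lib.MP_7cdc3e_gt.A.FinB

/-!
# MP_7cdc3e_gt, Theorem A for `C^{1,1}` immersions, without nondegeneracy

If `f` is a `C^{1,1}` immersion near one point at which some height function has a strict local
maximum, then there are three definite points in the sense of Peano which are not on a line
(`ThreePeano`), so Theorem A applies.  Statements with complete proofs.
-/

open HoloConj Pool.Agent.Lib.SingHom

namespace TightRP

namespace Ver

open MeasureTheory

/-- coordinates with the Euclidean norm -/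
abbrev E3 : Type := EuclideanSpace ℝ (Fin 3)

/-- `f` is a `C^{1,1}` immersion near a point at which some height function has a strict local
maximum: in a chart `e` the map `f` is differentiable, its derivative is Lipschitz, and is injective
at `y₀`, where the function `l` of `f` has a strict local maximum -/
def StrictC11 {M : Type} [TopologicalSpace M] {N : ℕ} (f : M → EuclideanSpace ℝ (Fin N)) : Prop :=
  ∃ (e : OpenPartialHomeomorph M E3) (y₀ : E3) (l : EuclideanSpace ℝ (Fin N) →ₗ[ℝ] ℝ) (K : NNReal),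
    y₀ ∈ e.target ∧ DifferentiableOn ℝ (fun y => f (e.symm y)) e.target ∧
    LipschitzOnWith K (fderiv ℝ (fun y => f (e.symm y))) e.target ∧
    Function.Injective (fderiv ℝ (fun y => f (e.symm y)) y₀) ∧
    ∀ᶠ y in nhdsWithin y₀ {y₀}ᶜ, l (f (e.symm y)) < l (f (e.symm y₀))

/-- `l ∘ F` has a nondegenerate critical point (positive definite second derivative) at `y`, in the
sense of a derivative which is differentiable at the point `y` -/
def Crit {N : ℕ} (F : E3 → EuclideanSpace ℝ (Fin N)) (y : E3)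
    (l : EuclideanSpace ℝ (Fin N) →ₗ[ℝ] ℝ) : Prop :=
  fderiv ℝ (fun z => l (F z)) y = 0 ∧
    ∀ v, v ≠ 0 → 0 < fderiv ℝ (fderiv ℝ (fun z => l (F z))) y v v

/-- D1: the second order expansion at a point where the derivative is differentiable.  As in
`A/Tay.lean` (`tay_expand`), with the derivative of
`φ(v) = F(y + v) - F(y) - F'(y) v - F''(y)(v, v) / 2`, which is
`F'(y + v) - F'(y) - F''(y)(v, ·) = o(|v|)` (symmetry of `F''(y)`:
`second_derivative_symmetric_of_eventually`), and the mean value inequality. -/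
def Tay2Stmt : Prop := ∀ (G : Type) [NormedAddCommGroup G] [NormedSpace ℝ G] (F : E3 → G) (y : E3),
  (∀ᶠ z in nhds y, DifferentiableAt ℝ F z) → DifferentiableAt ℝ (fderiv ℝ F) y →
  ((fun v => F (y + v) - F y - fderiv ℝ F y v - (1 / 2 : ℝ) • fderiv ℝ (fderiv ℝ F) y v v)
    =o[nhds 0] fun v => ‖v‖ ^ 2) ∧
  ∀ v w, fderiv ℝ (fderiv ℝ F) y v w = fderiv ℝ (fderiv ℝ F) y w v

/-- D2: Lipschitz maps send null sets to null sets.  `volume` and the Hausdorff measure `μH[3]` are
additive Haar measures (`isAddHaarMeasure_hausdorffMeasure`), so each is a finite nonzero multiple of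
the other; `LipschitzOnWith.hausdorffMeasure_image_le`. -/
def LipNullStmt : Prop := ∀ (P : E3 → E3) (s N₀ : Set E3) (K : NNReal), LipschitzOnWith K P s →
  N₀ ⊆ s → volume N₀ = 0 → volume (P '' N₀) = 0

/-- D3: interior maxima of linear perturbations.  `h(y) < h(y₀)` for `y ≠ y₀` in
`closedBall y₀ r` (`r ≤ R` small, by the strict local maximum), `h ≤ h(y₀) - μ` on the sphere;
`|⟨p, Ψ y - Ψ y₀⟩| ≤ |p| C ≤ μ / 2`, so the maximum of `h - ⟨p, Ψ⟩` over the closed ball is attained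
inside. -/
def PerStmt : Prop := ∀ (h : E3 → ℝ) (Ψ : E3 → E3) (y₀ : E3) (R : ℝ), 0 < R →
  ContinuousOn h (Metric.ball y₀ R) → ContinuousOn Ψ (Metric.ball y₀ R) →
  (∀ᶠ y in nhdsWithin y₀ {y₀}ᶜ, h y < h y₀) → ∃ δ > 0, ∀ p : E3, ‖p‖ < δ →
    ∃ y ∈ Metric.ball y₀ R, IsLocalMax (fun z => h z - inner ℝ p (Ψ z)) y

/-- D4: the solution of the critical equation.  Here `a y : E3 →L E3` is the adjoint of
`B ∘ DF(y)` and `g y` the gradient of `l ∘ F`; `P y = (a y)⁻¹ (g y)` near `y₀`, where `a y₀ = 1`.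
`a`, `g` are Lipschitz; choose `r` with `‖a y - 1‖ ≤ 1 / 2` on the ball; the inverse is bounded by `2`
and Lipschitz there (`a⁻¹ - a'⁻¹ = a⁻¹ (a' - a) a'⁻¹`), `g` is bounded.  At a point where `a`, `g` are
differentiable `P` is differentiable (`Ring.inverse` is differentiable at units) and the derivative
of `z ↦ g z - a z p`, `p = P y`, at `y` is `v ↦ a y (P'(y) v)`, because
`g z - a z p = a z (P z - p)`.  (`a y v = 0` only for `v = 0`.) -/
def SolStmt : Prop := ∀ (a : E3 → E3 →L[ℝ] E3) (g : E3 → E3) (T : Set E3) (y₀ : E3) (K : NNReal),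
  IsOpen T → y₀ ∈ T → LipschitzOnWith K a T → LipschitzOnWith K g T →
  a y₀ = ContinuousLinearMap.id ℝ E3 → ∃ (r : ℝ) (P : E3 → E3) (K' : NNReal), 0 < r ∧
    Metric.ball y₀ r ⊆ T ∧ LipschitzOnWith K' P (Metric.ball y₀ r) ∧
    (∀ y ∈ Metric.ball y₀ r, Function.Injective (a y)) ∧
    (∀ y ∈ Metric.ball y₀ r, ∀ p, g y = a y p ↔ p = P y) ∧
    ∀ y ∈ Metric.ball y₀ r, DifferentiableAt ℝ a y → DifferentiableAt ℝ g y →
      DifferentiableAt ℝ P y ∧
      ∀ v, fderiv ℝ (fun z => g z - a z (P y)) y v = a y (fderiv ℝ P y v)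

/-- D5: at a local maximum the second derivative is negative semidefinite.  Uses Tay2Stmt:
`0 ≥ h(y + t v) - h(y) = t² h''(y)(v, v) / 2 + o(t²)`. -/
def NegStmt : Prop := ∀ (h : E3 → ℝ) (y : E3), IsLocalMax h y →
  (∀ᶠ z in nhds y, DifferentiableAt ℝ h z) → DifferentiableAt ℝ (fderiv ℝ h) y →
  fderiv ℝ h y = 0 ∧ ∀ v, fderiv ℝ (fderiv ℝ h) y v v ≤ 0

/-- D6: definite points form a set of positive measure.  Uses LipNullStmt, PerStmt, SolStmt,
NegStmt, Tay2Stmt.  `F = f ∘ e.symm`, `T = e.target`, `A₀ = F'(y₀)` injective, `B` a linear left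
inverse of `A₀`, `a y = (B ∘ F'(y))†` (adjoint), `g y = (toDual)⁻¹ (l ∘ F'(y))`: Lipschitz on `T`,
`a y₀ = 1`.  `r`, `P` from SolStmt; `δ` from PerStmt with `h = l ∘ F`, `Ψ = B ∘ F`, `R = r`.  For
`|p| < δ` there is `y ∈ ball y₀ r`, a local maximum of `h_p = l ∘ F - ⟨p, B F⟩`; `h_p' = 0` reads
`g y = a y p`, so `P y = p`.  Let `S₀` be the set of `y ∈ ball y₀ r` which are local maxima of
`h_(P y)`: `ball 0 δ ⊆ P '' S₀`.  Let `N₀` be the set of points of the ball where `F'` is not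
differentiable: null by Rademacher (`LipschitzOnWith.ae_differentiableWithinAt_of_mem`), so
`P '' N₀` is null (LipNullStmt); `P` has image of measure zero on the set where it is differentiable
with `det P' = 0` (`addHaar_image_eq_zero_of_det_fderiv_eq_zero`).  So the set `S` of the other points
of `S₀` is not null (otherwise `ball 0 δ` would be null, LipNullStmt).  For `y ∈ S`, `p = P y`: the
derivative of `z ↦ h_p'(z)` at `y` is `(v, w) ↦ ⟨a y (P'(y) v), w⟩` (SolStmt), so it is nondegenerate,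
symmetric (Tay2Stmt) and `≤ 0` (NegStmt): negative definite (a symmetric negative semidefinite form
with `b(v, v) = 0` has `b(v, ·) = 0`).  So `Crit F y l'` for the linear function
`l' = -(l - ⟨p, B ·⟩)`. -/
def SetStmt : Prop := ∀ (M : Type) [TopologicalSpace M] (N : ℕ)
  (f : M → EuclideanSpace ℝ (Fin N)), StrictC11 f →
  ∃ (e : OpenPartialHomeomorph M E3) (S : Set E3),
    DifferentiableOn ℝ (fun y => f (e.symm y)) e.target ∧ S ⊆ e.target ∧ volume S ≠ 0 ∧
    ∀ y ∈ S, DifferentiableAt ℝ (fderiv ℝ (fun z => f (e.symm z))) y ∧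
      ∃ l, Crit (fun z => f (e.symm z)) y l

/-- D7: density points.  `IsUnifLocDoublingMeasure.ae_tendsto_measure_inter_div S K` for all
`K : ℕ`: choose `y ∈ S` which is good for all `K` (`volume S ≠ 0`).  For given `w`, `η`, `ρ₀` apply it
to the balls `closedBall (y + ρ_j w) (η ρ_j)`, `ρ_j → 0`; `y` is in `closedBall (y + ρ_j w) (K η ρ_j)`
for `K ≥ ‖w‖ / η`; the quotient of measures tends to `1`, so `S` meets the ball. -/
def DenStmt : Prop := ∀ S : Set E3, volume S ≠ 0 → ∃ y ∈ S, ∀ (w : E3) (η ρ₀ : ℝ), 0 < η → 0 < ρ₀ →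
  ∃ ρ : ℝ, 0 < ρ ∧ ρ < ρ₀ ∧ (S ∩ Metric.closedBall (y + ρ • w) (η * ρ)).Nonempty

/-- D8: definite points in the two senses.  Uses Tay2Stmt.  The chart at `e.symm y`:
`v ↦ e.symm (χ (toLp v))`, `χ = OpenPartialHomeomorph.univBall y r` (Mathlib: a diffeomorphism of the
whole space with `ball y r ⊆ e.target`, `χ 0 = y`, `χ(v) = y + r v / √(1 + |v|²)`, so
`χ(v) = y + r v + O(|v|³)`).  The expansion of `F` at `y` (Tay2Stmt) at `χ(v) - y` gives
`F(χ v) = F(y) + r F'(y) v + (r² / 2) F''(y)(v, v) + o(|v|²)`.  `PeanoPt` with `A = r F'(y)`,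
`B_ij = (r² / 2) F''(y)(e_i, e_j)`; `DefPt` with `d h = r (h ∘ e.symm)'(y)`,
`q h = (r² / 2) (h ∘ e.symm)''(y)` in coordinates (`h ∘ e.symm` is an affine function of `F`, so it is
differentiable near `y` with derivative differentiable at `y`). -/
def DpStmt : Prop := ∀ (M : Type) [TopologicalSpace M] (N : ℕ)
  (f : M → EuclideanSpace ℝ (Fin N)) (e : OpenPartialHomeomorph M E3) (y : E3)
  (l : EuclideanSpace ℝ (Fin N) →ₗ[ℝ] ℝ), y ∈ e.target →
  DifferentiableOn ℝ (fun z => f (e.symm z)) e.target →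
  DifferentiableAt ℝ (fderiv ℝ (fun z => f (e.symm z))) y → Crit (fun z => f (e.symm z)) y l →
  PeanoPt f (e.symm y) ∧ ∃ D : DefPt (aff f) (e.symm y), ∀ m : aff f,
    (fderiv ℝ (fun z => m.1 (e.symm z)) y = 0 → D.d m = 0) ∧
    ((∀ v, fderiv ℝ (fderiv ℝ (fun z => m.1 (e.symm z))) y v v = 0) → D.q m = 0)

/-- D9: the three points.  Uses SetStmt, DenStmt, DpStmt, Tay2Stmt, FrmStmt, R1Stmt.
`y` from DenStmt, `a = e.symm y`, `D`, `A : R1Pt`.  DenStmt with `‖w‖ = 1`, `η = 1 / 2` gives another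
point `y' ∈ S` (`y' ≠ y`), `b = e.symm y' ≠ a`.  `u = u^a(b)` (`A.rk b`), choose `p ≠ 0` with `u p = 0`;
`m = A.S p p ∈ aff f`: `m ≥ 0` (`A.rk`), `m a = 0`, `m b = 0`, `m ≠ 0` (`A.indep`).  `h = m ∘ e.symm` has a
minimum at `y`, so `h'(y) = 0`, `D.d m = 0`.  If `h''(y)(v, v) = 0` for all `v` then `D.q m = 0` and
`m = Λ (D.q m) = 0` (FrmStmt), a contradiction.  `h''(y)(v, v) ≥ 0` by the expansion, so
`h''(y)(w, w) = 4 κ > 0` for some `w`, and `h''(y)(w', w') ≥ 2 κ` for `|w' - w| ≤ η`.  The expansion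
gives `h(y + ρ w') ≥ κ ρ² - o(ρ²) > 0` for `ρ < ρ₀`; DenStmt gives `y'' = y + ρ w' ∈ S` of this form:
`c = e.symm y''`, `m c > 0`.  `m = l ∘ f + t`: the supporting half-space. -/
def C11Stmt : Prop := ∀ (F : Type) [Field F] (M : Type) [TopologicalSpace M] (N : ℕ)
  (f : M → EuclideanSpace ℝ (Fin N)), TSys F M (aff f) → StrictC11 f → ThreePeano f

/-- the theorem -/
def FinalCStmt : Prop := ∀ (F : Type) [Field F] (N : ℕ), 9 ≤ N →
  ∀ f : RP3 → EuclideanSpace ℝ (Fin N), Continuous f → LocInj f → Substantial f →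
    TightUpTo 1 F f → (StrictC11 f ∨ ThreePeano f) →
    N = 9 ∧ ∃ φ : RP3 ≃ₜ RP3, SmImm f φ ∧ Veronese f φ

end Ver

end TightRP
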